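import Pool.Agent.TH600.LM.Dich
import Pool.Agent.TH600.LC.Shift

/-!
# Curves with coordinates in the ring generated by meromorphic functions with linear differential
equations and entire functions with gaps
-/

set_option autoImplicit false

namespace Pool.Agent.TH600.LM

open Finset Filter Topology MvPolynomial
open scoped LinearAlgebra.Projectivization
open Pool.Agent.TH600.LC
open Pool.Agent.TH143.EL
open Pool.Agent.TH143.HE (RatCurvesIn IsPtP NonConst)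

/-- The meromorphic functions on the plane which satisfy a nontrivial linear differential equation
with coefficients in `B`. -/
def LinFun (B : Subalgebra ℂ (ℂ → ℂ)) : Set (ℂ → ℂ) := {u | Meromorphic u ∧ LinB B u}

/-- The ring generated by the meromorphic functions on the plane which satisfy a nontrivial linear
differential equation with coefficients in `B` and the entire functions with Hadamard gaps
at `z₀`. -/
noncomputable def MixRing (B : Subalgebra ℂ (ℂ → ℂ)) (z₀ : ℂ) : Subalgebra ℂ (ℂ → ℂ) :=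
  Algebra.adjoin ℂ (LinFun B ∪ {g | HadamardGaps z₀ g})

/-- coefficient functions which are analytic at the origin -/
def Yan (B : Subalgebra ℂ (ℂ → ℂ)) : Set (ℂ → ℂ) :=
  {u | (Meromorphic u ∧ LinB B u) ∧ AnalyticAt ℂ u 0}

theorem mero_gapOver {B : Subalgebra ℂ (ℂ → ℂ)} {z₀ : ℂ} {u : ℂ → ℂ} (hu : u ∈ MixRing B z₀) :
    Meromorphic u := by
  have h1 : MixRing B z₀ ≤ MerS := by
    refine Algebra.adjoin_le ?_
    rintro v (hv | hv)
    · exact hv.1
    · exact fun z => (hv.1.analyticAt z).meromorphicAt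
  exact h1 hu

theorem exists_mfm {B : Subalgebra ℂ (ℂ → ℂ)} (hB : TrOne B) {N : ℕ} {h : ℂ → Fin N → ℂ}
    (hh : ∀ j, (fun z => h z j) ∈ GapOver (Yan B) 0) :
    ∃ (s m : ℕ) (D : Mfm h s m), ∀ i, (fun z => D.y z i) ∈ Yan B := by
  obtain ⟨s, m, y, g, Q, hy, hg, hQ⟩ := exists_repr_pair (Yan B) hh
  obtain ⟨a, I, p, b, ha, hrel, hz⟩ := structure_loc (fun i => (hy i).2)
    (fun i => dAlg0_of_linB hB (hy i).1.1 (hy i).1.2 (hy i).2) hg
  exact ⟨s, m, ⟨y, g, Q, a, I, p, b, fun i => (hy i).1.1, fun i => (hy i).2, fun i => (hg i).1,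
    hQ, ha, hrel, hz⟩, hy⟩

theorem poly_mem_Yan {B : Subalgebra ℂ (ℂ → ℂ)} (hB : TrOne B) (p : Polynomial ℂ) :
    (fun z => p.eval z) ∈ Yan B :=
  ⟨poly_mem_linRing hB p, p.differentiable.analyticAt 0⟩

theorem pow_mem_Yan {B : Subalgebra ℂ (ℂ → ℂ)} (hB : TrOne B) (n : ℕ) :
    (fun z : ℂ => z ^ n) ∈ Yan B := by
  have h1 := poly_mem_Yan hB (Polynomial.X ^ n)
  simpa using h1

/-- clearing the pole at the origin -/
theorem exists_pow {B : Subalgebra ℂ (ℂ → ℂ)} (hB : TrOne B) {u : ℂ → ℂ} (hu : u ∈ MixRing B 0) :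
    ∃ d : ℕ, ∀ e ≥ d, (fun z => z ^ e * u z) ∈ GapOver (Yan B) 0 := by
  have hYan : ∀ v ∈ Yan B, v ∈ GapOver (Yan B) 0 := fun v hv =>
    Algebra.subset_adjoin (Or.inl hv)
  induction hu using Algebra.adjoin_induction with
  | mem u hu =>
    rcases hu with hu | hu
    · obtain ⟨n, hn⟩ := hu.1 0
      refine ⟨n, fun e he => hYan _ ?_⟩
      have h1 : (fun z : ℂ => z ^ e * u z) = (fun z : ℂ => z ^ e) * u := rfl
      refine ⟨?_, ?_⟩
      · rw [h1]
        exact (LinRing hB).mul_mem (pow_mem_Yan hB e).1 hu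
      · have h2 : (fun z : ℂ => z ^ e * u z) =
            (fun z : ℂ => z ^ (e - n)) * fun z => (z - 0) ^ n • u z := by
          funext z
          rw [Pi.mul_apply, sub_zero, smul_eq_mul, ← mul_assoc, ← pow_add, Nat.sub_add_cancel he]
        rw [h2]
        exact (pow_mem_Yan hB _).2.mul hn
    · refine ⟨0, fun e _ => ?_⟩
      exact (GapOver (Yan B) 0).mul_mem (hYan _ (pow_mem_Yan hB e))
        (Algebra.subset_adjoin (Or.inr hu))
  | algebraMap c =>
    exact ⟨0, fun e _ => (GapOver (Yan B) 0).mul_mem (hYan _ (pow_mem_Yan hB e))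
      ((GapOver (Yan B) 0).algebraMap_mem c)⟩
  | add u v _ _ h1 h2 =>
    obtain ⟨d1, h1⟩ := h1
    obtain ⟨d2, h2⟩ := h2
    refine ⟨max d1 d2, fun e he => ?_⟩
    have h3 : (fun z : ℂ => z ^ e * (u + v) z) =
        (fun z : ℂ => z ^ e * u z) + fun z : ℂ => z ^ e * v z := by
      funext z
      simp only [Pi.add_apply]
      ring
    rw [h3]
    exact (GapOver (Yan B) 0).add_mem (h1 e (le_of_max_le_left he)) (h2 e (le_of_max_le_right he))
  | mul u v _ _ h1 h2 =>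
    obtain ⟨d1, h1⟩ := h1
    obtain ⟨d2, h2⟩ := h2
    refine ⟨d1 + d2, fun e he => ?_⟩
    have h3 : (fun z : ℂ => z ^ e * (u * v) z) =
        (fun z : ℂ => z ^ (e - d2) * u z) * fun z : ℂ => z ^ d2 * v z := by
      funext z
      simp only [Pi.mul_apply]
      have h4 : z ^ e = z ^ (e - d2) * z ^ d2 := by
        rw [← pow_add, Nat.sub_add_cancel (by omega)]
      rw [h4]
      ring
    rw [h3]
    exact (GapOver (Yan B) 0).mul_mem (h1 (e - d2) (by omega)) (h2 d2 le_rfl)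

variable {N : ℕ}

/-- the entire curve factors through a one-dimensional complex torus -/
def DPer (f : ℂ → ℙ ℂ (Fin (N + 1) → ℂ)) : Prop :=
  ∃ ω₁ ω₂ : ℂ, LinearIndependent ℝ ![ω₁, ω₂] ∧ (∀ z, f (z + ω₁) = f z) ∧ ∀ z, f (z + ω₂) = f z

theorem codis_ne_zero : ∀ᶠ z in codiscrete ℂ, z ≠ (0 : ℂ) := by
  have h1 := poly_codis (B := Polynomial.X) Polynomial.X_ne_zero
  simpa using h1

/-- **Reduction to curves with linear differential equations.** -/
theorem reduce0 {I I' : Ideal (MvPolynomial (Fin (N + 1)) ℂ)}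
    (hR : RatCurvesIn (RingHom.id ℂ) I I') {B : Subalgebra ℂ (ℂ → ℂ)} (hB : TrOne B)
    {f : ℂ → ℙ ℂ (Fin (N + 1) → ℂ)} (hf : HolMap f)
    {h : Fin (N + 1) → ℂ → ℂ} (hl : ∀ j, h j ∈ MixRing B 0)
    (hr : ∀ᶠ z in codiscrete ℂ, Rep (f z) fun j => h j z) (hI : ∀ z, InV I (f z)) :
    (∀ z, InV I' (f z)) ∨ ∃ U : Fin (N + 1) → ℂ → ℂ, (∀ j, Meromorphic (U j)) ∧
      (∀ j, LinB B (U j)) ∧ ∀ᶠ z in codiscrete ℂ, Rep (f z) fun j => U j z := by
  classical
  choose d hd using fun j => exists_pow hB (hl j)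
  set e := Finset.univ.sup d with he
  have hde : ∀ j, d j ≤ e := fun j => Finset.le_sup (Finset.mem_univ j)
  let h' : ℂ → Fin (N + 1) → ℂ := fun z j => z ^ e * h j z
  have hr' : ∀ᶠ z in codiscrete ℂ, Rep (f z) (h' z) := by
    filter_upwards [hr, codis_ne_zero] with z hz hz0
    exact (rep_smul (pow_ne_zero e hz0)).2 hz
  obtain ⟨s, m, D, hD⟩ := exists_mfm hB (h := h') fun j => hd j e (hde j)
  rcases D.dich hR (by
      filter_upwards [hr'] with z hz
      exact (inV_iff hz).1 (hI z)) (by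
      filter_upwards [hr'] with z hz
      exact hz.1) with h1 | ⟨U, hU, hpar⟩
  · left
    intro z
    apply inV_of_punct hf
    filter_upwards [codis_ev h1 z, codis_ev hr' z] with y h2 h3
    rw [inV_iff h3]
    exact h2
  · right
    have hUL : ∀ j, U j ∈ LinRing hB := hU (LinRing hB) (poly_mem_linRing hB)
      (fun i => (hD i).1)
    refine ⟨U, fun j => (hUL j).1, fun j => (hUL j).2, ?_⟩
    filter_upwards [hpar, hr'] with z h2 h3
    refine (rep_iff h3).2 ⟨h2.1, fun j k => ?_⟩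
    have h4 := h2.2 k j
    linear_combination h4

/-- the translated ring -/
def shiftB (z₀ : ℂ) (B : Subalgebra ℂ (ℂ → ℂ)) : Subalgebra ℂ (ℂ → ℂ) := B.map (tr z₀)

theorem tr_deriv (z₀ : ℂ) (b : ℂ → ℂ) : deriv (tr z₀ b) = tr z₀ (deriv b) := by
  funext z
  have h1 := tr_iter z₀ b 1 z
  rw [iteratedDeriv_one, iteratedDeriv_one] at h1
  exact h1

theorem trOne_shift {B : Subalgebra ℂ (ℂ → ℂ)} (hB : TrOne B) (z₀ : ℂ) :
    TrOne (shiftB z₀ B) where
  mero := by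
    rintro _ ⟨b, hb, rfl⟩
    exact mero_comp_add (hB.mero b hb) z₀
  der := by
    rintro _ ⟨b, hb, rfl⟩
    refine ⟨deriv b, hB.der b hb, ?_⟩
    exact (tr_deriv z₀ b).symm
  dep := by
    rintro _ ⟨b, hb, rfl⟩ _ ⟨c, hc, rfl⟩
    obtain ⟨P, hP, h⟩ := hB.dep b hb c hc
    exact ⟨P, hP, codis_shift z₀ h⟩

theorem linB_shift {B : Subalgebra ℂ (ℂ → ℂ)} {u : ℂ → ℂ} (hu : LinB B u) (z₀ : ℂ) :
    LinB (shiftB z₀ B) (tr z₀ u) := by
  obtain ⟨m, a, ha, ⟨k, hk, hne⟩, h⟩ := hu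
  refine ⟨m, fun k => tr z₀ (a k), fun k => ⟨a k, ha k, rfl⟩, ⟨k, hk, fun h0 => hne ?_⟩, ?_⟩
  · have h1 := codis_shift (-z₀) h0
    filter_upwards [h1] with z hz
    rw [tr_apply, neg_add_cancel_right] at hz
    exact hz
  · have h1 := codis_shift z₀ h
    filter_upwards [h1] with z hz
    rw [← hz]
    refine Finset.sum_congr rfl fun k _ => ?_
    rw [tr_iter, tr_apply]

theorem mix_shift {B : Subalgebra ℂ (ℂ → ℂ)} {u : ℂ → ℂ} {z₀ : ℂ} (hu : u ∈ MixRing B z₀) :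
    tr z₀ u ∈ MixRing (shiftB z₀ B) 0 := by
  have h1 : tr z₀ u ∈ (MixRing B z₀).map (tr z₀) := ⟨u, hu, rfl⟩
  rw [MixRing, AlgHom.map_adjoin] at h1
  refine (Algebra.adjoin_mono ?_) h1
  rintro _ ⟨g, hg | hg, rfl⟩
  · exact Or.inl ⟨mero_comp_add hg.1 z₀, linB_shift hg.2 z₀⟩
  · exact Or.inr (tr_gaps hg)

/-- **Main theorem.** An entire curve with homogeneous coordinates in the ring lies in the rational
curve locus, or it is given by linear differential equations. -/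
theorem reduce {I I' : Ideal (MvPolynomial (Fin (N + 1)) ℂ)}
    (hR : RatCurvesIn (RingHom.id ℂ) I I') {B : Subalgebra ℂ (ℂ → ℂ)} (hB : TrOne B) {z₀ : ℂ}
    {f : ℂ → ℙ ℂ (Fin (N + 1) → ℂ)} (hf : HolMap f)
    {h : Fin (N + 1) → ℂ → ℂ} (hl : ∀ j, h j ∈ MixRing B z₀)
    (hr : ∀ᶠ z in codiscrete ℂ, Rep (f z) fun j => h j z) (hI : ∀ z, InV I (f z)) :
    (∀ z, InV I' (f z)) ∨ ∃ U : Fin (N + 1) → ℂ → ℂ, (∀ j, Meromorphic (U j)) ∧
      (∀ j, LinB B (U j)) ∧ ∀ᶠ z in codiscrete ℂ, Rep (f z) fun j => U j z := by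
  rcases reduce0 hR (trOne_shift hB z₀) (hf.shift z₀) (h := fun j => tr z₀ (h j))
    (fun j => mix_shift (hl j)) (codis_shift z₀ hr) (fun z => hI (z + z₀)) with
      h1 | ⟨U, hUm, hUl, hUr⟩
  · left
    intro z
    have h2 := h1 (z - z₀)
    rwa [sub_add_cancel] at h2
  · right
    have hBB : shiftB (-z₀) (shiftB z₀ B) = B := by
      ext b
      constructor
      · rintro ⟨_, ⟨c, hc, rfl⟩, rfl⟩
        have : tr (-z₀) (tr z₀ c) = c := tr_neg z₀ c
        change tr (-z₀) (tr z₀ c) ∈ B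
        rw [this]
        exact hc
      · intro hb
        exact ⟨tr z₀ b, ⟨b, hb, rfl⟩, tr_neg z₀ b⟩
    refine ⟨fun j => tr (-z₀) (U j), fun j => mero_comp_add (hUm j) (-z₀), fun j => ?_, ?_⟩
    · have h2 := linB_shift (hUl j) (-z₀)
      rwa [hBB] at h2
    · have h2 := codis_shift (-z₀) hUr
      filter_upwards [h2] with z hz
      rw [neg_add_cancel_right] at hz
      exact hz

/-- **Dichotomy.** -/
theorem mix_dichotomy {I I' : Ideal (MvPolynomial (Fin (N + 1)) ℂ)}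
    (hR : RatCurvesIn (RingHom.id ℂ) I I') {B : Subalgebra ℂ (ℂ → ℂ)} (hB : TrOne B) {z₀ : ℂ}
    {f : ℂ → ℙ ℂ (Fin (N + 1) → ℂ)} (hf : HolMap f)
    {h : Fin (N + 1) → ℂ → ℂ} (hl : ∀ j, h j ∈ MixRing B z₀)
    (hr : ∀ᶠ z in codiscrete ℂ, Rep (f z) fun j => h j z) (hI : ∀ z, InV I (f z))
    (hnc : ∃ z w, f z ≠ f w) : (∀ z, InV I' (f z)) ∨ DPer f := by
  rcases reduce hR hB hf hl hr hI with h1 | ⟨U, hUm, hUl, hUr⟩
  · exact Or.inl h1
  · exact dichotomy hR hB hf hUm hUl hUr hI hnc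

/-- **Tori.** -/
theorem mix_main {I I' : Ideal (MvPolynomial (Fin (N + 1)) ℂ)} (hT : TorusMapsIn I I')
    {B : Subalgebra ℂ (ℂ → ℂ)} (hB : TrOne B) {z₀ : ℂ} {f : ℂ → ℙ ℂ (Fin (N + 1) → ℂ)}
    (hf : HolMap f) {h : Fin (N + 1) → ℂ → ℂ} (hl : ∀ j, h j ∈ MixRing B z₀)
    (hr : ∀ᶠ z in codiscrete ℂ, Rep (f z) fun j => h j z) (hI : ∀ z, InV I (f z))
    (hnc : ∃ z w, f z ≠ f w) : ∀ z, InV I' (f z) := by
  rcases mix_dichotomy (ratCurves_of_torus hT) hB hf hl hr hI hnc with h1 | ⟨ω₁, ω₂, h1, h2, h3⟩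
  · exact h1
  · exact hT ω₁ ω₂ h1 f hf h2 h3 hI hnc

end Pool.Agent.TH600.LM
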