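import Pool.Agent.TH600.LM.PStr
import Pool.Agent.TH600.LM.Mix

/-!
# Dichotomy for curves with coordinates in the ring generated by solutions of linear differential
equations and gap series in an entire function
-/

set_option autoImplicit false

namespace Pool.Agent.TH600.LM

open Finset Filter Topology MvPolynomial
open scoped LinearAlgebra.Projectivization
open Pool.Agent.TH600.LC hiding evS
open Pool.Agent.TH143.EL hiding evS
open Pool.Agent.TH143.HE (RatCurvesIn IsPtP NonConst)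

section nu

variable {s m : ℕ} {ψ : ℂ → ℂ} (y : ℂ → Fin s → ℂ) (a : Polynomial ℂ) (I : Finset (Fin m))
    (p : Fin m → Polynomial ℂ) (b : Fin m → Fin m → Polynomial ℂ)

theorem nuP_mem {S : Subalgebra ℂ (ℂ → ℂ)} (hp : ∀ q : Polynomial ℂ, (fun z => q.eval (ψ z)) ∈ S)
    (hy : ∀ i, (fun z => y z i) ∈ S) (d : ℕ) (H : MvPolynomial (Fin s ⊕ Fin m) ℂ)
    (x : Fin m → ℂ) : (fun z => nuP a I p b d H x (ψ z) (y z)) ∈ S := by
  have h1 : (fun z => nuP a I p b d H x (ψ z) (y z)) = hval d (algebraMap ℂ (ℂ → ℂ))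
      (fun z => a.eval (ψ z)) (Sum.elim (fun i => (fun z => a.eval (ψ z)) * fun z => y z i)
        (fun i => (fun z => (p i).eval (ψ z)) + ∑ l ∈ I, (fun z => (b i l).eval (ψ z)) *
          algebraMap ℂ (ℂ → ℂ) (x l))) H := by
    funext z
    have h0 : hval d (algebraMap ℂ (ℂ → ℂ))
      (fun z => a.eval (ψ z)) (Sum.elim (fun i => (fun z => a.eval (ψ z)) * fun z => y z i)
        (fun i => (fun z => (p i).eval (ψ z)) + ∑ l ∈ I, (fun z => (b i l).eval (ψ z)) *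
          algebraMap ℂ (ℂ → ℂ) (x l))) H z = (Pi.evalRingHom (fun _ : ℂ => ℂ) z)
      (hval d (algebraMap ℂ (ℂ → ℂ))
      (fun z => a.eval (ψ z)) (Sum.elim (fun i => (fun z => a.eval (ψ z)) * fun z => y z i)
        (fun i => (fun z => (p i).eval (ψ z)) + ∑ l ∈ I, (fun z => (b i l).eval (ψ z)) *
          algebraMap ℂ (ℂ → ℂ) (x l))) H) := rfl
    rw [h0, map_hval, nuP]
    have e1 : (Pi.evalRingHom (fun _ : ℂ => ℂ) z).comp (algebraMap ℂ (ℂ → ℂ)) =
        RingHom.id ℂ := by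
      ext c
      rfl
    rw [e1]
    congr 1
    funext i
    rcases i with i | i
    · rfl
    · rw [Sum.elim_inr, Sum.elim_inr]
      simp only [Pi.evalRingHom_apply, Pi.add_apply, Finset.sum_apply, Pi.mul_apply]
      rfl
  rw [h1]
  refine hval_mem S d (hp _) (fun i => ?_) _
  rcases i with i | i
  · exact S.mul_mem (hp _) (hy i)
  · exact S.add_mem (hp _) (S.sum_mem fun l _ => S.mul_mem (hp _) (S.algebraMap_mem _))

theorem nuP_an (hψ : Differentiable ℂ ψ) {z1 : ℂ} (hy : ∀ i, AnalyticAt ℂ (fun z => y z i) z1)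
    (d : ℕ) (H : MvPolynomial (Fin s ⊕ Fin m) ℂ) (x : Fin m → ℂ) :
    AnalyticAt ℂ (fun z => nuP a I p b d H x (ψ z) (y z)) z1 := by
  let S : Subalgebra ℂ (ℂ → ℂ) :=
    { carrier := {f | AnalyticAt ℂ f z1}
      mul_mem' := fun h1 h2 => h1.mul h2
      add_mem' := fun h1 h2 => h1.add h2
      algebraMap_mem' := fun c => analyticAt_const }
  exact nuP_mem (S := S) y a I p b (fun q => (q.differentiable.comp hψ).analyticAt z1) hy d H x

end nu

/-- The data of a curve with coordinates in the ring. -/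
structure Gfm (ψ : ℂ → ℂ) {N : ℕ} (h : ℂ → Fin N → ℂ) (s m : ℕ) where
  /-- coefficient functions -/
  y : ℂ → Fin s → ℂ
  /-- functions with gaps -/
  g : ℂ → Fin m → ℂ
  /-- polynomials -/
  Q : Fin N → MvPolynomial (Fin s ⊕ Fin m) ℂ
  /-- denominator -/
  a : Polynomial ℂ
  /-- indices of a basis -/
  I : Finset (Fin m)
  /-- constant terms -/
  p : Fin m → Polynomial ℂ
  /-- coefficients -/
  b : Fin m → Fin m → Polynomial ℂ
  dψ : Differentiable ℂ ψ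
  nψ : NCE ψ
  my : ∀ i, Meromorphic (fun z => y z i)
  fQ : ∀ z j, h z j = MvPolynomial.eval (Sum.elim (y z) (g (ψ z))) (Q j)
  a0 : a ≠ 0
  rel : ∀ z i, a.eval z * g z i = (p i).eval z + ∑ l ∈ I, (b i l).eval z * g z l
  zero : ∀ H : MvPolynomial (Fin s ⊕ Fin m) ℂ,
        (∀ᶠ z in codiscrete ℂ, MvPolynomial.eval (Sum.elim (y z) (g (ψ z))) H = 0) →
        ∀ (x : Fin m → ℂ), ∀ᶠ z in codiscrete ℂ,
          nuP a I p b H.totalDegree H x (ψ z) (y z) = 0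

namespace Gfm

variable {ψ : ℂ → ℂ} {N s m : ℕ} {h : ℂ → Fin N → ℂ} (D : Gfm ψ h s m)

/-- the point of the affine space with parameters `w, x` -/
noncomputable def Φ (w : ℂ) (x : Fin m → ℂ) (i : Fin m) : ℂ :=
  ((D.p i).eval w + ∑ l ∈ D.I, (D.b i l).eval w * x l) / D.a.eval w

/-- the point of the variety with parameters `z, x` -/
noncomputable def Ψ (z : ℂ) (x : Fin m → ℂ) (j : Fin N) : ℂ :=
  MvPolynomial.eval (Sum.elim (D.y z) (D.Φ (ψ z) x)) (D.Q j)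

theorem Φ_g {w : ℂ} (hw : D.a.eval w ≠ 0) : D.Φ w (D.g w) = D.g w := by
  funext i
  rw [Φ, ← D.rel w i, mul_div_cancel_left₀ _ hw]

theorem Ψ_g {z : ℂ} (hz : D.a.eval (ψ z) ≠ 0) : D.Ψ z (D.g (ψ z)) = h z := by
  funext j
  rw [Ψ, D.Φ_g hz, D.fQ]

/-- the set where the coefficient functions are analytic -/
def Om : Set ℂ := {z | ∀ i, AnalyticAt ℂ (fun z => D.y z i) z}

theorem Om_codis : D.Om ∈ codiscrete ℂ := eventually_all.2 fun i => mero_an (D.my i)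

theorem a_codis : ∀ᶠ z in codiscrete ℂ, D.a.eval (ψ z) ≠ 0 := by
  have hd : Differentiable ℂ (fun z => D.a.eval (ψ z)) := D.a.differentiable.comp D.dψ
  refine mero_ne (mero_of_diff hd) fun h0 => ?_
  have h1 := zero_of_image D.dψ D.nψ D.a.differentiable h0
  apply D.a0
  exact Polynomial.funext fun w => by rw [h1 w, Polynomial.eval_zero]

theorem rel_Ψ {G : MvPolynomial (Fin N) ℂ}
    (hG : ∀ᶠ z in codiscrete ℂ, MvPolynomial.eval (h z) G = 0) {z : ℂ}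
    (hzO : z ∈ D.Om) (hz : D.a.eval (ψ z) ≠ 0) (x : Fin m → ℂ) :
    MvPolynomial.eval (D.Ψ z x) G = 0 := by
  have h1 : ∀ y : Fin s ⊕ Fin m → ℂ, MvPolynomial.eval y (MvPolynomial.bind₁ D.Q G) =
      MvPolynomial.eval (fun j => MvPolynomial.eval y (D.Q j)) G := by
    intro y
    rw [MvPolynomial.eval, MvPolynomial.eval₂Hom_bind₁]
    rfl
  set H := MvPolynomial.bind₁ D.Q G with hH
  have h2 : ∀ᶠ z in codiscrete ℂ, MvPolynomial.eval (Sum.elim (D.y z) (D.g (ψ z))) H = 0 := by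
    filter_upwards [hG] with z hz
    rw [h1, ← hz]
    congr 2
    funext j
    exact (D.fQ z j).symm
  have h3 := D.zero H h2 x
  have h4 := (near_of_codis (nuP_an D.y D.a D.I D.p D.b D.dψ hzO _ H x) h3).self_of_nhds
  rw [nuP_eq D.a D.I D.p D.b le_rfl x _ hz] at h4
  have h5 := (mul_eq_zero.1 h4).resolve_left (pow_ne_zero _ hz)
  rw [h1] at h5
  exact h5

theorem exists_deg : ∃ d : ℕ, ∀ j, (D.Q j).totalDegree ≤ d :=
  ⟨Finset.univ.sup fun j => (D.Q j).totalDegree, fun j =>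
    Finset.le_sup (f := fun j => (D.Q j).totalDegree) (Finset.mem_univ j)⟩

/-- the numerators -/
noncomputable def UU (d : ℕ) (x : Fin m → ℂ) (j : Fin N) (z : ℂ) : ℂ :=
  nuP D.a D.I D.p D.b d (D.Q j) x (ψ z) (D.y z)

theorem UU_eq {d : ℕ} (hd : ∀ j, (D.Q j).totalDegree ≤ d) (x : Fin m → ℂ) (j : Fin N) {z : ℂ}
    (hz : D.a.eval (ψ z) ≠ 0) : D.UU d x j z = D.a.eval (ψ z) ^ d * D.Ψ z x j :=
  nuP_eq D.a D.I D.p D.b (hd j) x _ hz

/-- The polynomial curves in the family. -/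
theorem exists_line (z : ℂ) (x x' : Fin m → ℂ) : ∃ P : Fin N → Polynomial ℂ, ∀ j t,
      (P j).eval t = D.Ψ z (fun l => x l + t * (x' l - x l)) j := by
  let V : Fin s ⊕ Fin m → Polynomial ℂ := Sum.elim (fun i => Polynomial.C (D.y z i))
    (fun i => (Polynomial.C ((D.p i).eval (ψ z)) + ∑ l ∈ D.I, Polynomial.C ((D.b i l).eval (ψ z)) *
      (Polynomial.C (x l) + Polynomial.X * Polynomial.C (x' l - x l))) *
        Polynomial.C (D.a.eval (ψ z))⁻¹)
  refine ⟨fun j => aeval V (D.Q j), fun j t => ?_⟩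
  have h1 := MvPolynomial.comp_aeval_apply (f := V) (Polynomial.aeval t) (D.Q j)
  rw [Polynomial.coe_aeval_eq_eval] at h1
  rw [h1, MvPolynomial.aeval_eq_eval, Ψ]
  congr 2
  funext i
  rcases i with i | i
  · simp [V]
  · simp only [V, Sum.elim_inr, Φ, Polynomial.eval_mul, Polynomial.eval_add,
      Polynomial.eval_C, Polynomial.eval_finsetSum, Polynomial.eval_X, div_eq_mul_inv]

end Gfm

/-- **Dichotomy.** -/
theorem Gfm.dich {ψ : ℂ → ℂ} {N s m : ℕ} {h : ℂ → Fin (N + 1) → ℂ} (D : Gfm ψ h s m)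
    {I I' : Ideal (MvPolynomial (Fin (N + 1)) ℂ)} (hR : RatCurvesIn (RingHom.id ℂ) I I')
    (hI : ∀ᶠ z in codiscrete ℂ, ∀ G ∈ I, (∃ d, G.IsHomogeneous d) →
      MvPolynomial.eval (h z) G = 0)
    (h0 : ∀ᶠ z in codiscrete ℂ, h z ≠ 0) :
    (∀ᶠ z in codiscrete ℂ, ∀ G ∈ I', (∃ d, G.IsHomogeneous d) →
      MvPolynomial.eval (h z) G = 0) ∨
    ∃ U : Fin (N + 1) → ℂ → ℂ, (∀ S : Subalgebra ℂ (ℂ → ℂ),
      (∀ q : Polynomial ℂ, (fun z => q.eval (ψ z)) ∈ S) → (∀ i, (fun z => D.y z i) ∈ S) →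
        ∀ j, U j ∈ S) ∧
      ∀ᶠ z in codiscrete ℂ, (fun j => U j z) ≠ 0 ∧ ∀ j k, U j z * h z k = U k z * h z j := by
  obtain ⟨d, hd⟩ := D.exists_deg
  have hae : ∀ᶠ z in codiscrete ℂ, D.a.eval (ψ z) ≠ 0 := D.a_codis
  have hOm : ∀ᶠ z in codiscrete ℂ, z ∈ D.Om := D.Om_codis
  have hUm : ∀ x j, Meromorphic (D.UU d x j) := by
    intro x j
    let S : Subalgebra ℂ (ℂ → ℂ) := MerS
    exact nuP_mem (S := S) D.y D.a D.I D.p D.b
      (fun q => mero_of_diff (q.differentiable.comp D.dψ)) D.my d (D.Q j) x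
  have hUa : ∀ x j z, z ∈ D.Om → AnalyticAt ℂ (D.UU d x j) z := fun x j z hz =>
    nuP_an D.y D.a D.I D.p D.b D.dψ hz d (D.Q j) x
  by_cases hcase : ∃ z0 x0 x1 j k, z0 ∈ D.Om ∧ D.a.eval (ψ z0) ≠ 0 ∧
      D.Ψ z0 x0 j * D.Ψ z0 x1 k ≠ D.Ψ z0 x1 j * D.Ψ z0 x0 k
  · left
    obtain ⟨z0, x0, x1, j, k, hz0, ha0, hne⟩ := hcase
    -- nonproportionality at almost all points
    have hw : ∀ᶠ z in codiscrete ℂ,
        D.UU d x0 j z * D.UU d x1 k z - D.UU d x1 j z * D.UU d x0 k z ≠ 0 := by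
      refine mero_ne (((hUm x0 j).mul (hUm x1 k)).sub ((hUm x1 j).mul (hUm x0 k))) ?_
      intro hcon
      have h1 := near_of_codis (x := z0) (u := fun z => D.UU d x0 j z * D.UU d x1 k z -
        D.UU d x1 j z * D.UU d x0 k z) (((hUa x0 j z0 hz0).mul (hUa x1 k z0 hz0)).sub
          ((hUa x1 j z0 hz0).mul (hUa x0 k z0 hz0))) hcon
      have h2 := h1.self_of_nhds
      simp only [D.UU_eq hd _ _ ha0] at h2
      apply hne
      have h3 : (D.a.eval (ψ z0) ^ d * D.a.eval (ψ z0) ^ d) * (D.Ψ z0 x0 j * D.Ψ z0 x1 k) =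
          (D.a.eval (ψ z0) ^ d * D.a.eval (ψ z0) ^ d) * (D.Ψ z0 x1 j * D.Ψ z0 x0 k) := by
        linear_combination h2
      exact mul_left_cancel₀ (mul_ne_zero (pow_ne_zero _ ha0) (pow_ne_zero _ ha0)) h3
    have hI2 : ∀ G ∈ I, (∃ d, G.IsHomogeneous d) →
        ∀ᶠ z in codiscrete ℂ, MvPolynomial.eval (h z) G = 0 := fun G hG hGh =>
      hI.mono fun z hz => hz G hG hGh
    filter_upwards [hw, hae, hOm, h0] with z hwz haz hOz hhz G hG hGh
    -- a point which is not proportional to the value of the curve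
    obtain ⟨x', j', k', hx'⟩ : ∃ x' j' k', h z j' * D.Ψ z x' k' ≠ D.Ψ z x' j' * h z k' := by
      by_contra hcon
      push Not at hcon
      obtain ⟨l, hl⟩ := Function.ne_iff.1 hhz
      have hl' : h z l ≠ 0 := hl
      apply hwz
      rw [D.UU_eq hd _ _ haz, D.UU_eq hd _ _ haz, D.UU_eq hd _ _ haz, D.UU_eq hd _ _ haz]
      have e1 := hcon x0 l j
      have e2 := hcon x0 l k
      have e3 := hcon x1 l j
      have e4 := hcon x1 l k
      have h5 : h z l * h z l * (D.Ψ z x0 j * D.Ψ z x1 k - D.Ψ z x1 j * D.Ψ z x0 k) = 0 := by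
        have e5 : h z l * h z l * (D.Ψ z x0 j * D.Ψ z x1 k - D.Ψ z x1 j * D.Ψ z x0 k) =
            (h z l * D.Ψ z x0 j) * (h z l * D.Ψ z x1 k) -
              (h z l * D.Ψ z x1 j) * (h z l * D.Ψ z x0 k) := by ring
        rw [e5, e1, e2, e3, e4]
        ring
      have h6 := (mul_eq_zero.1 h5).resolve_left (mul_ne_zero hl' hl')
      linear_combination (D.a.eval (ψ z) ^ d * D.a.eval (ψ z) ^ d) * h6
    obtain ⟨P, hP⟩ := D.exists_line z (D.g (ψ z)) x'
    have hP0 : ∀ j, (P j).eval 0 = h z j := by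
      intro j
      have e1 : (fun l => D.g (ψ z) l + 0 * (x' l - D.g (ψ z) l)) = D.g (ψ z) := by
        funext l
        ring
      rw [hP, e1, D.Ψ_g haz]
    have hP1 : ∀ j, (P j).eval 1 = D.Ψ z x' j := by
      intro j
      have e1 : (fun l => D.g (ψ z) l + 1 * (x' l - D.g (ψ z) l)) = x' := by
        funext l
        ring
      rw [hP, e1]
    have h3 := hR P (fun u G hG hGh => by
      rw [eval₂_id]
      have e1 : (fun j => (P j).eval u) =
          D.Ψ z (fun l => D.g (ψ z) l + u * (x' l - D.g (ψ z) l)) := funext fun j => hP j u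
      rw [e1]
      exact D.rel_Ψ (hI2 G hG hGh) hOz haz _) ⟨j', k', 0, 1, by
        rw [hP0, hP0, hP1, hP1]
        intro h4
        apply hx'
        linear_combination h4⟩ 0 G hG hGh
    rw [eval₂_id] at h3
    have e1 : (fun j => (P j).eval 0) = h z := funext hP0
    rw [e1] at h3
    exact h3
  · right
    push Not at hcase
    obtain ⟨z1, ⟨⟨hz1, ha1⟩, hh1⟩⟩ := ((hOm.and hae).and h0).exists
    refine ⟨fun j => D.UU d (D.g (ψ z1)) j, fun S hS1 hS2 j =>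
      nuP_mem D.y D.a D.I D.p D.b hS1 hS2 d (D.Q j) (D.g (ψ z1)), ?_⟩
    -- nonvanishing
    obtain ⟨l, hl⟩ := Function.ne_iff.1 hh1
    have hl' : h z1 l ≠ 0 := hl
    have hne : ∀ᶠ z in codiscrete ℂ, D.UU d (D.g (ψ z1)) l z ≠ 0 := by
      refine mero_ne (hUm _ _) ?_
      intro hcon
      have h1 := (near_of_codis (hUa (D.g (ψ z1)) l z1 hz1) hcon).self_of_nhds
      rw [D.UU_eq hd _ _ ha1, D.Ψ_g ha1] at h1
      exact hl' ((mul_eq_zero.1 h1).resolve_left (pow_ne_zero _ ha1))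
    filter_upwards [hne, hae, hOm] with z hz haz hOz
    refine ⟨fun h1 => hz (congrFun h1 l), fun j k => ?_⟩
    rw [D.UU_eq hd _ _ haz, D.UU_eq hd _ _ haz]
    have h3 := hcase z (D.g (ψ z1)) (D.g (ψ z)) j k hOz haz
    rw [D.Ψ_g haz] at h3
    linear_combination D.a.eval (ψ z) ^ d * h3

/-- The compositions of the entire functions with Hadamard gaps at the origin with `ψ`. -/
def GapIn (ψ : ℂ → ℂ) : Set (ℂ → ℂ) := {u | ∃ g, HadamardGaps 0 g ∧ u = fun z => g (ψ z)}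

/-- The ring generated by the meromorphic functions on the plane which satisfy a nontrivial linear
differential equation with coefficients in `B` and the gap series in `ψ`. -/
noncomputable def PsiRing (B : Subalgebra ℂ (ℂ → ℂ)) (ψ : ℂ → ℂ) : Subalgebra ℂ (ℂ → ℂ) :=
  Algebra.adjoin ℂ (LinFun B ∪ GapIn ψ)

/-- Representation of finitely many elements. -/
theorem exists_repr_psi (Y : Set (ℂ → ℂ)) {ψ : ℂ → ℂ} {N : ℕ} {f : ℂ → Fin N → ℂ}
    (hf : ∀ j, (fun z => f z j) ∈ Algebra.adjoin ℂ (Y ∪ GapIn ψ)) :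
    ∃ (s m : ℕ) (y : ℂ → Fin s → ℂ) (g : ℂ → Fin m → ℂ)
      (Q : Fin N → MvPolynomial (Fin s ⊕ Fin m) ℂ),
      (∀ i, (fun z => y z i) ∈ Y) ∧ (∀ i, HadamardGaps 0 (fun z => g z i)) ∧
      ∀ z j, f z j = MvPolynomial.eval (Sum.elim (y z) (g (ψ z))) (Q j) := by
  classical
  obtain ⟨n, u, Q, hu, hQ⟩ := exists_repr_set _ hf
  let A := {i : Fin n // (fun z => u z i) ∈ Y}
  let B := {i : Fin n // ¬ (fun z => u z i) ∈ Y}
  have hB : ∀ i : B, ∃ g, HadamardGaps 0 g ∧ (fun z => u z i.1) = fun z => g (ψ z) :=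
    fun i => (hu i.1).resolve_left i.2
  choose gg hgg hugg using hB
  let eA : A ≃ Fin (Fintype.card A) := Fintype.equivFin A
  let eB : B ≃ Fin (Fintype.card B) := Fintype.equivFin B
  let e : Fin n ≃ Fin (Fintype.card A) ⊕ Fin (Fintype.card B) :=
    (Equiv.sumCompl fun i : Fin n => (fun z => u z i) ∈ Y).symm.trans (Equiv.sumCongr eA eB)
  refine ⟨Fintype.card A, Fintype.card B, fun z i => u z (eA.symm i).1,
    fun z i => gg (eB.symm i) z, fun j => MvPolynomial.rename e (Q j),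
    fun i => (eA.symm i).2, fun i => hgg (eB.symm i), fun z j => ?_⟩
  rw [hQ, MvPolynomial.eval_rename]
  congr 2
  funext i
  rw [Function.comp_apply]
  by_cases hi : (fun z => u z i) ∈ Y
  · have h1 : e i = Sum.inl (eA ⟨i, hi⟩) := by
      simp only [e, Equiv.trans_apply]
      rw [Equiv.sumCompl_symm_apply_of_pos (p := fun i : Fin n => (fun z => u z i) ∈ Y) hi]
      rfl
    rw [h1, Sum.elim_inl]
    change u z i = u z (eA.symm (eA ⟨i, hi⟩)).1
    rw [Equiv.symm_apply_apply]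
  · have h1 : e i = Sum.inr (eB ⟨i, hi⟩) := by
      simp only [e, Equiv.trans_apply]
      rw [Equiv.sumCompl_symm_apply_of_neg (p := fun i : Fin n => (fun z => u z i) ∈ Y) hi]
      rfl
    rw [h1, Sum.elim_inr]
    change u z i = gg (eB.symm (eB ⟨i, hi⟩)) (ψ z)
    rw [Equiv.symm_apply_apply]
    exact congrFun (hugg ⟨i, hi⟩) z

theorem exists_gfm {B : Subalgebra ℂ (ℂ → ℂ)} (hB : TrOne B) {ψ : ℂ → ℂ}
    (hψ : Differentiable ℂ ψ) (hn : NCE ψ) (hψB : LinB B ψ) {N : ℕ} {h : ℂ → Fin N → ℂ}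
    (hh : ∀ j, (fun z => h z j) ∈ PsiRing B ψ) :
    ∃ (s m : ℕ) (D : Gfm ψ h s m), ∀ i, (fun z => D.y z i) ∈ LinFun B := by
  obtain ⟨s, m, y, g, Q, hy, hg, hQ⟩ := exists_repr_psi (LinFun B) hh
  obtain ⟨a, I, p, b, ha, hrel, hz⟩ := structure_psi hB hψ hn hψB (fun i => (hy i).1)
    (fun i => (hy i).2) hg
  exact ⟨s, m, ⟨y, g, Q, a, I, p, b, hψ, hn, fun i => (hy i).1, hQ, ha, hrel, hz⟩, hy⟩

variable {N : ℕ}

/-- **Reduction to curves with linear differential equations.** -/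
theorem psi_reduce {I I' : Ideal (MvPolynomial (Fin (N + 1)) ℂ)}
    (hR : RatCurvesIn (RingHom.id ℂ) I I') {B : Subalgebra ℂ (ℂ → ℂ)} (hB : TrOne B)
    {ψ : ℂ → ℂ} (hψ : Differentiable ℂ ψ) (hn : NCE ψ) (hψB : LinB B ψ)
    {f : ℂ → ℙ ℂ (Fin (N + 1) → ℂ)} (hf : HolMap f)
    {h : Fin (N + 1) → ℂ → ℂ} (hl : ∀ j, h j ∈ PsiRing B ψ)
    (hr : ∀ᶠ z in codiscrete ℂ, Rep (f z) fun j => h j z) (hI : ∀ z, InV I (f z)) :
    (∀ z, InV I' (f z)) ∨ ∃ U : Fin (N + 1) → ℂ → ℂ, (∀ j, Meromorphic (U j)) ∧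
      (∀ j, LinB B (U j)) ∧ ∀ᶠ z in codiscrete ℂ, Rep (f z) fun j => U j z := by
  classical
  obtain ⟨s, m, D, hD⟩ := exists_gfm hB hψ hn hψB (h := fun z j => h j z) hl
  rcases D.dich hR (by
      filter_upwards [hr] with z hz
      exact (inV_iff hz).1 (hI z)) (by
      filter_upwards [hr] with z hz
      exact hz.1) with h1 | ⟨U, hU, hpar⟩
  · left
    intro z
    apply inV_of_punct hf
    filter_upwards [codis_ev h1 z, codis_ev hr z] with y h2 h3
    rw [inV_iff h3]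
    exact h2
  · right
    have hpol : ∀ q : Polynomial ℂ, (fun z => q.eval (ψ z)) ∈ LinRing hB := by
      intro q
      have h2 : (fun z => q.eval (ψ z)) = Polynomial.aeval ψ q := by
        funext z
        have h3 : (Polynomial.aeval ψ q) z =
            (Pi.evalRingHom (fun _ : ℂ => ℂ) z) (Polynomial.aeval ψ q) := rfl
        rw [h3, Polynomial.aeval_def, Polynomial.hom_eval₂]
        rfl
      rw [h2]
      have h4 : Algebra.adjoin ℂ {ψ} ≤ LinRing hB :=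
        Algebra.adjoin_le (Set.singleton_subset_iff.2 ⟨mero_of_diff hψ, hψB⟩)
      exact h4 (Polynomial.aeval_mem_adjoin_singleton ℂ ψ)
    have hUL : ∀ j, U j ∈ LinRing hB := hU (LinRing hB) hpol (fun i => hD i)
    refine ⟨U, fun j => (hUL j).1, fun j => (hUL j).2, ?_⟩
    filter_upwards [hpar, hr] with z h2 h3
    refine (rep_iff h3).2 ⟨h2.1, fun j k => ?_⟩
    have h4 := h2.2 k j
    linear_combination h4

/-- **Dichotomy.** -/
theorem psi_dichotomy {I I' : Ideal (MvPolynomial (Fin (N + 1)) ℂ)}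
    (hR : RatCurvesIn (RingHom.id ℂ) I I') {B : Subalgebra ℂ (ℂ → ℂ)} (hB : TrOne B)
    {ψ : ℂ → ℂ} (hψ : Differentiable ℂ ψ) (hn : NCE ψ) (hψB : LinB B ψ)
    {f : ℂ → ℙ ℂ (Fin (N + 1) → ℂ)} (hf : HolMap f)
    {h : Fin (N + 1) → ℂ → ℂ} (hl : ∀ j, h j ∈ PsiRing B ψ)
    (hr : ∀ᶠ z in codiscrete ℂ, Rep (f z) fun j => h j z) (hI : ∀ z, InV I (f z))
    (hnc : ∃ z w, f z ≠ f w) : (∀ z, InV I' (f z)) ∨ DPer f := by
  rcases psi_reduce hR hB hψ hn hψB hf hl hr hI with h1 | ⟨U, hUm, hUl, hUr⟩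
  · exact Or.inl h1
  · exact dichotomy hR hB hf hUm hUl hUr hI hnc

/-- **Tori.** -/
theorem psi_main {I I' : Ideal (MvPolynomial (Fin (N + 1)) ℂ)} (hT : TorusMapsIn I I')
    {B : Subalgebra ℂ (ℂ → ℂ)} (hB : TrOne B)
    {ψ : ℂ → ℂ} (hψ : Differentiable ℂ ψ) (hn : NCE ψ) (hψB : LinB B ψ)
    {f : ℂ → ℙ ℂ (Fin (N + 1) → ℂ)}
    (hf : HolMap f) {h : Fin (N + 1) → ℂ → ℂ} (hl : ∀ j, h j ∈ PsiRing B ψ)
    (hr : ∀ᶠ z in codiscrete ℂ, Rep (f z) fun j => h j z) (hI : ∀ z, InV I (f z))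
    (hnc : ∃ z w, f z ≠ f w) : ∀ z, InV I' (f z) := by
  rcases psi_dichotomy (ratCurves_of_torus hT) hB hψ hn hψB hf hl hr hI hnc with
    h1 | ⟨ω₁, ω₂, h1, h2, h3⟩
  · exact h1
  · exact hT ω₁ ω₂ h1 f hf h2 h3 hI hnc

end Pool.Agent.TH600.LM
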