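import Pool.Agent.TH600.LC.FamP

/-!
# Algebraic independence of sparse series in an abstract differential field

`S` is a ring of power series containing the polynomials and stable under `X d/dX`, and `Φ` is an
embedding of `S` into a field `E` with a derivation `D` such that `D (Φ u) = Φ (X u')`. Sparse
series which with `1` are linearly independent over the rational functions give elements of `E`
which are algebraically independent over all subfields of `E` of finite transcendence degree over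
the rational functions which are stable under `D`.
-/

set_option autoImplicit false

namespace Pool.Agent.TH600.LM

open Finset AlgebraicIndependent Module
open Pool.Agent.TH600.LC

/-- The embedding of a ring of power series. -/
structure PsEmb {S : Subalgebra ℂ (PowerSeries ℂ)} {E : Type} [Field E] [Algebra (KK ℂ) E]
    (Φ : S →+* E) : Prop where
  inj : Function.Injective Φ
  pol : ∀ p : Polynomial ℂ, ∃ hp : (p : PowerSeries ℂ) ∈ S,
    Φ ⟨(p : PowerSeries ℂ), hp⟩ = algebraMap (KK ℂ) E (algebraMap (Polynomial ℂ) (KK ℂ) p)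
  th : ∀ u ∈ S, theta ℂ u ∈ S

namespace PsEmb

variable {S : Subalgebra ℂ (PowerSeries ℂ)} {E : Type} [Field E] [Algebra (KK ℂ) E]
  {Φ : S →+* E} (H : PsEmb Φ)

/-- polynomials -/
noncomputable def pS (p : Polynomial ℂ) : S := ⟨(p : PowerSeries ℂ), (H.pol p).choose⟩

/-- the derivation of the series -/
noncomputable def thS (u : S) : S := ⟨theta ℂ u, H.th u u.2⟩

theorem Φ_pS (p : Polynomial ℂ) :
    Φ (H.pS p) = algebraMap (KK ℂ) E (algebraMap (Polynomial ℂ) (KK ℂ) p) := (H.pol p).choose_spec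

theorem Φ_pS_ne {p : Polynomial ℂ} (hp : p ≠ 0) : Φ (H.pS p) ≠ 0 := by
  rw [H.Φ_pS, Ne, map_eq_zero, map_eq_zero_iff _ (IsFractionRing.injective (Polynomial ℂ) (KK ℂ))]
  exact hp

theorem thS_iter (u : S) (j : ℕ) : ((H.thS^[j] u : S) : PowerSeries ℂ) = (theta ℂ)^[j] u := by
  induction j with
  | zero => rfl
  | succ j ih =>
    rw [Function.iterate_succ_apply', Function.iterate_succ_apply', ← ih]
    rfl

include H in
theorem frac (c : KK ℂ) : ∃ r s : Polynomial ℂ, s ≠ 0 ∧
    algebraMap (KK ℂ) E c = Φ (H.pS r) / Φ (H.pS s) := by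
  obtain ⟨p, q, hq, rfl⟩ := IsFractionRing.div_surjective (A := Polynomial ℂ) c
  exact ⟨p, q, nonZeroDivisors.ne_zero hq, by rw [map_div₀, H.Φ_pS, H.Φ_pS]⟩

theorem pS_add (p q : Polynomial ℂ) : H.pS (p + q) = H.pS p + H.pS q :=
  Subtype.ext (Polynomial.coe_add p q)

theorem pS_mul (p q : Polynomial ℂ) : H.pS (p * q) = H.pS p * H.pS q :=
  Subtype.ext (Polynomial.coe_mul p q)

/-- polynomials, as a ring homomorphism -/
noncomputable def pH : Polynomial ℂ →+* S where
  toFun := H.pS
  map_one' := Subtype.ext Polynomial.coe_one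
  map_mul' := H.pS_mul
  map_zero' := Subtype.ext Polynomial.coe_zero
  map_add' := H.pS_add

include H in
theorem algInd {κ : Type} [Fintype κ] [DecidableEq κ] (g : κ → S)
    (hs : Sparse {n | ∃ i, PowerSeries.coeff n (g i : PowerSeries ℂ) ≠ 0}) {I : Finset κ}
    (hI : Ind (fun i => (g i : PowerSeries ℂ)) I) :
    AlgebraicIndependent (KK ℂ) (fun l : I => Φ (g l)) := by
  let i1 : Algebra (Polynomial ℂ) E :=
    ((algebraMap (KK ℂ) E).comp (algebraMap (Polynomial ℂ) (KK ℂ))).toAlgebra
  have i2 : IsScalarTower (Polynomial ℂ) (KK ℂ) E := IsScalarTower.of_algebraMap_eq fun _ => rfl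
  have h0 : AlgebraicIndependent (Polynomial ℂ) (fun l : I => Φ (g l)) := by
    rw [algebraicIndependent_iff]
    intro P hP
    have h1 : Φ (MvPolynomial.eval₂ H.pH (fun l : I => g l) P) = 0 := by
      rw [← hP, MvPolynomial.eval₂_comp_left, MvPolynomial.aeval_def]
      congr 1
      ext p
      · exact H.Φ_pS _
      · exact H.Φ_pS _
    have h2 := (map_eq_zero_iff Φ H.inj).1 h1
    refine algInd_poly (fun i => (g i : PowerSeries ℂ)) hs hI P ?_
    have h3 := congrArg (S.val : S →+* PowerSeries ℂ) h2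
    rw [map_zero, MvPolynomial.eval₂_comp_left] at h3
    exact h3
  have halg : Algebra.IsAlgebraic (Polynomial ℂ) (KK ℂ) :=
    IsLocalization.isAlgebraic _ (nonZeroDivisors (Polynomial ℂ))
  exact h0.extendScalars _

/-- The span of the series with exponents in `A`. -/
noncomputable def VB (Φ : S →+* E) (A : Set ℕ) : Submodule (KK ℂ) E :=
  Submodule.span (KK ℂ) (Φ '' {u | ∀ n, PowerSeries.coeff n (u : PowerSeries ℂ) ≠ 0 → n ∈ A})

variable {R₀ : Type} [CommRing R₀] [Algebra R₀ E]

theorem VB_der {D : Derivation R₀ E E} (hD : ∀ u, D (Φ u) = Φ (H.thS u))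
    (hD' : ∀ c : KK ℂ, ∃ c' : KK ℂ, D (algebraMap (KK ℂ) E c) = algebraMap (KK ℂ) E c')
    (A : Set ℕ) : ∀ v ∈ VB Φ A, D v ∈ VB Φ A := by
  intro v hv
  suffices h : v ∈ VB Φ A ∧ D v ∈ VB Φ A from h.2
  unfold VB at hv
  induction hv using Submodule.span_induction with
  | mem x hx =>
    refine ⟨Submodule.subset_span hx, ?_⟩
    obtain ⟨u, hu, rfl⟩ := hx
    refine Submodule.subset_span ⟨H.thS u, fun n hn => hu n fun h0 => hn ?_, (hD u).symm⟩
    change PowerSeries.coeff n (theta ℂ (u : PowerSeries ℂ)) = 0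
    rw [coeff_theta, h0, mul_zero]
  | zero => exact ⟨Submodule.zero_mem _, by rw [map_zero]; exact Submodule.zero_mem _⟩
  | add x y _ _ hx hy =>
    exact ⟨Submodule.add_mem _ hx.1 hy.1, by rw [map_add]; exact Submodule.add_mem _ hx.2 hy.2⟩
  | smul c x _ hx =>
    obtain ⟨c', hc'⟩ := hD' c
    refine ⟨Submodule.smul_mem _ _ hx.1, ?_⟩
    rw [Algebra.smul_def c x, Derivation.leibniz, hc', smul_eq_mul, smul_eq_mul,
      ← Algebra.smul_def c, mul_comm x, ← Algebra.smul_def c']
    exact Submodule.add_mem _ (Submodule.smul_mem _ _ hx.2) (Submodule.smul_mem _ _ hx.1)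

include H in
theorem exists_near {A : Set ℕ} {v : E} (hv : v ∈ VB Φ A) :
    ∃ (q : Polynomial ℂ) (u : S), q ≠ 0 ∧ Near A (u : PowerSeries ℂ) ∧
      Φ (H.pS q) * v = Φ u := by
  unfold VB at hv
  induction hv using Submodule.span_induction with
  | mem x hx =>
    obtain ⟨u, hu, rfl⟩ := hx
    refine ⟨1, u, one_ne_zero, near_of_mem hu, ?_⟩
    have h1 : H.pS 1 = 1 := Subtype.ext Polynomial.coe_one
    rw [h1, map_one, one_mul]
  | zero => exact ⟨1, 0, one_ne_zero, near_zero A, by rw [mul_zero, map_zero]⟩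
  | add x y _ _ hx hy =>
    obtain ⟨q, u, hq, hu, h1⟩ := hx
    obtain ⟨q', u', hq', hu', h2⟩ := hy
    refine ⟨q * q', H.pS q' * u + H.pS q * u', mul_ne_zero hq hq',
      (hu.poly_mul q').add (hu'.poly_mul q), ?_⟩
    rw [H.pS_mul, map_mul, map_add, map_mul, map_mul, ← h1, ← h2]
    ring
  | smul c x _ hx =>
    obtain ⟨q, u, hq, hu, h1⟩ := hx
    obtain ⟨r, s, hs, hc⟩ := H.frac c
    refine ⟨s * q, H.pS r * u, mul_ne_zero hs hq, hu.poly_mul r, ?_⟩
    rw [Algebra.smul_def c x, hc, H.pS_mul, map_mul, map_mul, ← h1]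
    have := H.Φ_pS_ne hs
    field_simp

open Classical in
theorem VB_fin {A : Set ℕ} (hA : LongGaps A) {D : Derivation R₀ E E}
    (hD : ∀ u, D (Φ u) = Φ (H.thS u)) (W : Submodule (KK ℂ) E)
    (hW : FiniteDimensional (KK ℂ) W) (hWA : W ≤ VB Φ A) (hWD : ∀ w ∈ W, D w ∈ W) :
    finrank (KK ℂ) W ≤ 1 := by
  have hle : W ≤ (KK ℂ) ∙ (1 : E) := by
    intro w hw
    obtain ⟨q, u, hq, hu, hqu⟩ := H.exists_near (hWA hw)
    have hq0 := H.Φ_pS_ne hq
    have huW : Φ u ∈ W := by
      rw [← hqu, H.Φ_pS, ← Algebra.smul_def]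
      exact W.smul_mem _ hw
    have hit : ∀ j, Φ (H.thS^[j] u) ∈ W := by
      intro j
      induction j with
      | zero => exact huW
      | succ j ih =>
        rw [Function.iterate_succ_apply', ← hD]
        exact hWD _ ih
    -- a linear relation
    set n := finrank (KK ℂ) W + 1 with hn
    have hdep : ¬ LinearIndependent (KK ℂ) (fun j : Fin n => (⟨_, hit j⟩ : W)) := by
      intro hli
      have := hli.fintype_card_le_finrank
      rw [Fintype.card_fin] at this
      omega
    rw [Fintype.not_linearIndependent_iff] at hdep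
    obtain ⟨c, hc, j0, hj0⟩ := hdep
    have hc' : ∑ j : Fin n, c j • Φ (H.thS^[(j : ℕ)] u) = 0 := by
      have := congrArg Subtype.val hc
      simpa using this
    -- common denominator
    obtain ⟨b, hb⟩ := IsLocalization.exist_integer_multiples_of_finset
      (nonZeroDivisors (Polynomial ℂ)) (Finset.univ.image c)
    have hb' : ∀ j, ∃ d : Polynomial ℂ, algebraMap (Polynomial ℂ) (KK ℂ) d =
        (b : Polynomial ℂ) • c j := by
      intro j
      obtain ⟨d, hd⟩ := hb (c j) (Finset.mem_image_of_mem _ (Finset.mem_univ _))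
      exact ⟨d, hd⟩
    choose d hd using hb'
    have hb0 : algebraMap (Polynomial ℂ) (KK ℂ) (b : Polynomial ℂ) ≠ 0 := by
      rw [Ne, map_eq_zero_iff _ (IsFractionRing.injective _ _)]
      exact nonZeroDivisors.ne_zero b.2
    have hd0 : d j0 ≠ 0 := by
      intro h0
      have h2 := hd j0
      rw [h0, map_zero, Algebra.smul_def] at h2
      exact (mul_ne_zero hb0 hj0) h2.symm
    have hrel : ∑ j : Fin n, H.pS (d j) * H.thS^[(j : ℕ)] u = 0 := by
      apply H.inj
      rw [map_zero, map_sum]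
      have h3 : ∀ j : Fin n, Φ (H.pS (d j) * H.thS^[(j : ℕ)] u) =
          algebraMap (KK ℂ) E (algebraMap (Polynomial ℂ) (KK ℂ) b) *
            (c j • Φ (H.thS^[(j : ℕ)] u)) := by
        intro j
        rw [map_mul, H.Φ_pS, hd, Algebra.smul_def, Algebra.smul_def (c j), map_mul]
        ring
      rw [Finset.sum_congr rfl fun j _ => h3 j, ← Finset.mul_sum, hc', mul_zero]
    have hrel' : ∑ j : Fin n, (d j : PowerSeries ℂ) * (theta ℂ)^[(j : ℕ)] (u : PowerSeries ℂ) =
        0 := by
      have h3 := congrArg (S.val : S →+* PowerSeries ℂ) hrel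
      rw [map_zero, map_sum] at h3
      rw [← h3]
      refine Finset.sum_congr rfl fun j _ => ?_
      rw [map_mul, ← H.thS_iter]
      rfl
    obtain ⟨p, hp⟩ := poly_of_ode (u := (u : PowerSeries ℂ)) (fun L N => hu.gap hA L N) n
      (fun j => if h : j < n then d ⟨j, h⟩ else 0)
      ⟨j0, Finset.mem_range.2 j0.2, by rw [dif_pos j0.2]; exact hd0⟩ (by
        rw [← hrel', Finset.sum_range]
        refine Finset.sum_congr rfl fun j _ => ?_
        rw [dif_pos j.2])
    have hp' : u = H.pS p := Subtype.ext hp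
    rw [Submodule.mem_span_singleton]
    refine ⟨algebraMap _ _ p / algebraMap _ _ q, ?_⟩
    rw [Algebra.smul_def _ (1 : E), mul_one, map_div₀, ← H.Φ_pS, ← H.Φ_pS, ← hp',
      ← hqu, mul_div_cancel_left₀ _ hq0]
  calc finrank (KK ℂ) W ≤ finrank (KK ℂ) ((KK ℂ) ∙ (1 : E)) := Submodule.finrank_mono hle
    _ ≤ 1 := by rw [finrank_span_singleton one_ne_zero]

include H in
/-- The rank of a span of sparse series. -/
theorem VB_rank {A : Set ℕ} (hA : Sparse A) (W : Submodule (KK ℂ) E)
    (hW : FiniteDimensional (KK ℂ) W) (hWA : W ≤ VB Φ A) :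
    (finrank (KK ℂ) W : ℕ∞) ≤ (matroid (KK ℂ) E).eRk W + 1 := by
  classical
  -- a finite set of series
  obtain ⟨s, hs⟩ := (Submodule.fg_iff_finiteDimensional W).2 hW
  have hT : ∀ x : s, ∃ T : Finset E, (T : Set E) ⊆
      Φ '' {u | ∀ n, PowerSeries.coeff n (u : PowerSeries ℂ) ≠ 0 → n ∈ A} ∧
      (x : E) ∈ Submodule.span (KK ℂ) (T : Set E) := by
    intro x
    have hx : (x : E) ∈ VB Φ A := hWA (by rw [← hs]; exact Submodule.subset_span x.2)
    exact Submodule.mem_span_finite_of_mem_span hx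
  choose T hTA hTx using hT
  let κ : Finset E := Finset.univ.biUnion T
  have hκ : ∀ x : κ, ∃ u : S, (∀ n, PowerSeries.coeff n (u : PowerSeries ℂ) ≠ 0 → n ∈ A) ∧
      Φ u = x := by
    intro x
    obtain ⟨y, _, hy⟩ := Finset.mem_biUnion.1 x.2
    obtain ⟨u, hu, h1⟩ := hTA y hy
    exact ⟨u, hu, h1⟩
  choose g hgA hg using hκ
  have hWκ : W ≤ Submodule.span (KK ℂ) (κ : Set E) := by
    rw [← hs, Submodule.span_le]
    intro x hx
    refine Submodule.span_mono ?_ (hTx ⟨x, hx⟩)
    intro y hy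
    exact Finset.mem_biUnion.2 ⟨⟨x, hx⟩, Finset.mem_univ _, hy⟩
  obtain ⟨I, a, p, b, hI, ha, hrel⟩ := exists_rel (fun i => (g i : PowerSeries ℂ))
  have hsp : Sparse {n | ∃ i, PowerSeries.coeff n (g i : PowerSeries ℂ) ≠ 0} :=
    hA.mono fun n ⟨i, hn⟩ => hgA i n hn
  have hind := H.algInd g hsp hI
  let e : I → E := fun l => Φ (g l)
  let S' : Finset E := insert 1 (Finset.univ.image e)
  let W' : Submodule (KK ℂ) E := Submodule.span (KK ℂ) (S' : Set E)
  have hWW' : W ≤ W' := by
    refine hWκ.trans (Submodule.span_le.2 fun x hx => ?_)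
    have h0 : H.pS a * g ⟨x, hx⟩ = H.pS (p ⟨x, hx⟩) + ∑ l ∈ I, H.pS (b ⟨x, hx⟩ l) * g l := by
      apply Subtype.ext
      have h1 := hrel ⟨x, hx⟩
      have h2 : ((H.pS (p ⟨x, hx⟩) + ∑ l ∈ I, H.pS (b ⟨x, hx⟩ l) * g l : S) : PowerSeries ℂ) =
          (p ⟨x, hx⟩ : PowerSeries ℂ) + ∑ l ∈ I, (b ⟨x, hx⟩ l : PowerSeries ℂ) * g l := by
        have h3 := map_sum (S.val : S →+* PowerSeries ℂ)
          (fun l => H.pS (b ⟨x, hx⟩ l) * g l) I
        exact congrArg (fun A => (p ⟨x, hx⟩ : PowerSeries ℂ) + A) h3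
      rw [h2, ← h1]
      rfl
    have h1 := congrArg Φ h0
    have ha0 := H.Φ_pS_ne ha
    have h2 : x = (Φ (H.pS (p ⟨x, hx⟩)) / Φ (H.pS a)) +
        ∑ l : I, (Φ (H.pS (b ⟨x, hx⟩ l)) / Φ (H.pS a)) * e l := by
      rw [map_mul, hg, map_add, map_sum, ← Finset.sum_coe_sort I
        (fun l => Φ (H.pS (b ⟨x, hx⟩ l) * g l))] at h1
      rw [← mul_right_inj' ha0, h1, mul_add, mul_div_cancel₀ _ ha0, Finset.mul_sum]
      congr 1
      refine Finset.sum_congr rfl fun l _ => ?_
      rw [map_mul]
      simp only [e]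
      field_simp
    have hsc : ∀ (r : Polynomial ℂ) (v : E), v ∈ W' →
        (Φ (H.pS r) / Φ (H.pS a)) * v ∈ W' := by
      intro r v hv
      rw [H.Φ_pS, H.Φ_pS, ← map_div₀, ← Algebra.smul_def]
      exact Submodule.smul_mem _ _ hv
    change x ∈ W'
    rw [h2]
    refine Submodule.add_mem _ ?_ (Submodule.sum_mem _ fun l _ => hsc _ _ ?_)
    · have h3 := hsc (p ⟨x, hx⟩) 1 (Submodule.subset_span (Finset.mem_coe.2
        (Finset.mem_insert_self _ _)))
      rwa [mul_one] at h3
    · exact Submodule.subset_span (Finset.mem_coe.2 (Finset.mem_insert_of_mem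
        (Finset.mem_image_of_mem _ (Finset.mem_univ _))))
  have hW'f : FiniteDimensional (KK ℂ) W' := FiniteDimensional.span_finset _ _
  have h1 : finrank (KK ℂ) W' ≤ I.card + 1 := by
    refine (finrank_span_finset_le_card (R := KK ℂ) S').trans ?_
    refine (Finset.card_insert_le _ _).trans ?_
    have := Finset.card_image_le (s := (Finset.univ : Finset I)) (f := e)
    rw [Finset.card_univ, Fintype.card_coe] at this
    omega
  have h2 : (I.card : ℕ∞) ≤ (matroid (KK ℂ) E).eRk W' := by
    have h3 : (matroid (KK ℂ) E).Indep (Set.range e) := by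
      rw [matroid_indep_iff]
      exact hind.to_subtype_range
    have h4 := h3.encard_le_eRk_of_subset (X := (W' : Set E)) (by
      rintro _ ⟨l, rfl⟩
      exact Submodule.subset_span (Finset.mem_coe.2 (Finset.mem_insert_of_mem
        (Finset.mem_image_of_mem _ (Finset.mem_univ _)))))
    have h5 : (Set.range e).encard = I.card := by
      rw [← Set.image_univ, hind.injective.encard_image, Set.encard_univ]
      simp
    rwa [h5] at h4
  have h3 := rk_add_finrank_le (k := KK ℂ) (t := (∅ : Set E)) Set.finite_empty hWW'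
  have hcoe : ∀ (U : Submodule (KK ℂ) E) [FiniteDimensional (KK ℂ) U],
      (rk (KK ℂ) (∅ : Set E) U : ℕ∞) = (matroid (KK ℂ) E).eRk U := by
    intro U _
    rw [coe_rk Set.finite_empty, Set.empty_union]
  rw [← hcoe W'] at h2
  rw [← hcoe W]
  have h4 : I.card ≤ rk (KK ℂ) (∅ : Set E) W' := by exact_mod_cast h2
  have h5 : finrank (KK ℂ) W ≤ rk (KK ℂ) (∅ : Set E) W + 1 := by omega
  exact_mod_cast h5

/-- **Theorem.** Sparse series, linearly independent together with `1`, are algebraically
independent over every differential ring of finite transcendence degree. -/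
theorem family [CharZero E] {κ : Type} [Fintype κ] [DecidableEq κ] (g : κ → S)
    (hs : Sparse {n | ∃ i, PowerSeries.coeff n (g i : PowerSeries ℂ) ≠ 0}) {I : Finset κ}
    (hI : Ind (fun i => (g i : PowerSeries ℂ)) I)
    {D : Derivation R₀ E E} (hD : ∀ u, D (Φ u) = Φ (H.thS u))
    (hD' : ∀ c : KK ℂ, ∃ c' : KK ℂ, D (algebraMap (KK ℂ) E c) = algebraMap (KK ℂ) E c')
    {T : Set E} (hT : T.Finite) (hTD : ∀ s ∈ T, D s ∈ clo (KK ℂ) T)
    {R : Type} [CommRing R] (θ : R →+* E) (hθ : ∀ r, θ r ∈ clo (KK ℂ) T)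
    (P : MvPolynomial I R) (hP : MvPolynomial.eval₂ θ (fun l : I => Φ (g l)) P = 0) :
    MvPolynomial.map θ P = 0 := by
  classical
  -- a basis of `T`
  obtain ⟨t, htb⟩ := (matroid (KK ℂ) E).exists_isBasis T (Set.subset_univ _)
  have htT : t ⊆ T := htb.subset
  have hti : (matroid (KK ℂ) E).Indep t := htb.indep
  have htf : t.Finite := hT.subset htT
  have hTt : T ⊆ (clo (KK ℂ) t : Set E) := by
    rw [coe_clo]
    exact htb.subset_closure
  have hclo : clo (KK ℂ) T ≤ clo (KK ℂ) t := clo_le hTt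
  have htD : ∀ s ∈ t, D s ∈ clo (KK ℂ) t := fun s hs => hclo (hTD s (htT hs))
  -- the space
  set A : Set ℕ := insert 0 {n | ∃ i, PowerSeries.coeff n (g i : PowerSeries ℂ) ≠ 0} with hAdef
  have hA : Sparse A := by
    have h0 : Sparse ({0} : Set ℕ) := ⟨0, fun M hM => by
      have : ({0} : Set ℕ) ∩ Set.Ico M (2 * M) = ∅ := by
        ext x
        simp only [Set.mem_inter_iff, Set.mem_singleton_iff, Set.mem_Ico, Set.mem_empty_iff_false,
          iff_false, not_and]
        omega
      rw [this, Set.ncard_empty]⟩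
    exact (h0.union hs).mono (by rw [hAdef, Set.insert_eq])
  have hind := H.algInd g hs hI
  let e : I → E := fun l => Φ (g l)
  let S' : Finset E := insert 1 (Finset.univ.image e)
  let W : Submodule (KK ℂ) E := Submodule.span (KK ℂ) (S' : Set E)
  have hWf : FiniteDimensional (KK ℂ) W := FiniteDimensional.span_finset _ _
  have h1W : (1 : E) ∈ W := Submodule.subset_span (Finset.mem_coe.2
    (Finset.mem_insert_self _ _))
  have heW : ∀ l, e l ∈ W := fun l => Submodule.subset_span (Finset.mem_coe.2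
    (Finset.mem_insert_of_mem (Finset.mem_image_of_mem _ (Finset.mem_univ _))))
  have hWA : W ≤ VB Φ A := by
    refine Submodule.span_le.2 fun x hx => ?_
    rw [Finset.mem_coe] at hx
    rcases Finset.mem_insert.1 hx with rfl | hx
    · refine Submodule.subset_span ⟨1, fun n hn => ?_, map_one _⟩
      have hn' : PowerSeries.coeff n (1 : PowerSeries ℂ) ≠ 0 := hn
      rw [PowerSeries.coeff_one] at hn'
      have h0 : n = 0 := by
        by_contra h
        rw [if_neg h] at hn'
        exact hn' rfl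
      exact Or.inl h0
    · obtain ⟨l, _, rfl⟩ := Finset.mem_image.1 hx
      exact Submodule.subset_span ⟨g l, fun n hn => Or.inr ⟨l, hn⟩, rfl⟩
  have hmain := diff_main D hD' (VB Φ A) (H.VB_der hD hD' A)
    (fun W' h1 _ h2 => H.VB_rank hA W' h1 h2)
    (fun W' h1 _ h3 h4 => H.VB_fin hA.longGaps hD W' h1 h3 h4) htf hti htD W hWf h1W hWA
  have hrange : (matroid (KK ℂ) E).Indep (Set.range e) := by
    rw [matroid_indep_iff]
    exact hind.to_subtype_range
  have hencard : (Set.range e).encard = I.card := by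
    rw [← Set.image_univ, hind.injective.encard_image, Set.encard_univ]
    simp
  -- the dimension of `W`
  have hdim : I.card + 1 ≤ finrank (KK ℂ) W := by
    have h1 : (KK ℂ) ∙ (1 : E) ≤ W := by
      rw [Submodule.span_singleton_le_iff_mem]
      exact h1W
    have h2 := rk_add_finrank_le (k := KK ℂ) (t := (∅ : Set E)) Set.finite_empty h1
    rw [finrank_span_singleton one_ne_zero] at h2
    have h3 : rk (KK ℂ) (∅ : Set E) ((KK ℂ) ∙ (1 : E)) = 0 := by
      have h4 : ((rk (KK ℂ) (∅ : Set E) ((KK ℂ) ∙ (1 : E)) : ℕ) : ℕ∞) ≤ 0 := by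
        rw [coe_rk Set.finite_empty]
        calc (matroid (KK ℂ) E).eRk (∅ ∪ ((KK ℂ) ∙ (1 : E) : Submodule _ _))
            ≤ (matroid (KK ℂ) E).eRk (clo (KK ℂ) (∅ : Set E)) := by
              refine (matroid (KK ℂ) E).eRk_mono ?_
              rw [Set.empty_union]
              refine span_subset_clo ?_
              rintro x hx
              rw [Set.mem_singleton_iff.1 hx]
              exact (clo (KK ℂ) (∅ : Set E)).one_mem
          _ = 0 := by rw [eRk_clo, Matroid.eRk_empty]
      have h4' : rk (KK ℂ) (∅ : Set E) ((KK ℂ) ∙ (1 : E)) ≤ 0 := by exact_mod_cast h4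
      omega
    have h5 : (I.card : ℕ∞) ≤ (rk (KK ℂ) (∅ : Set E) W : ℕ) := by
      rw [coe_rk Set.finite_empty, Set.empty_union, ← hencard]
      refine hrange.encard_le_eRk_of_subset ?_
      rintro _ ⟨l, rfl⟩
      exact heW l
    have h6 : I.card ≤ rk (KK ℂ) (∅ : Set E) W := by exact_mod_cast h5
    omega
  have hrk : I.card + t.ncard ≤ rk (KK ℂ) t W := by omega
  -- the union is independent
  have hsub : (matroid (KK ℂ) E).eRk (t ∪ W) ≤
      (matroid (KK ℂ) E).eRk (t ∪ Set.range e) := by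
    rw [← eRk_clo (t ∪ Set.range e)]
    refine (matroid (KK ℂ) E).eRk_mono ?_
    rintro x (hx | hx)
    · exact subset_clo (t ∪ Set.range e) (Or.inl hx)
    · refine span_subset_clo ?_ hx
      intro y hy
      rw [Finset.mem_coe] at hy
      rcases Finset.mem_insert.1 hy with rfl | hy
      · exact (clo (KK ℂ) (t ∪ Set.range e)).one_mem
      · obtain ⟨l, _, rfl⟩ := Finset.mem_image.1 hy
        exact subset_clo (t ∪ Set.range e) (Or.inr ⟨l, rfl⟩)
  have hcard : ((I.card + t.ncard : ℕ) : ℕ∞) ≤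
      (matroid (KK ℂ) E).eRk (t ∪ Set.range e) := by
    refine le_trans ?_ hsub
    rw [← coe_rk htf]
    exact_mod_cast hrk
  have htenc : t.encard = (t.ncard : ℕ∞) := htf.cast_ncard_eq.symm
  have hfinu : (t ∪ Set.range e).Finite := htf.union (Set.finite_range e)
  have hle : (t ∪ Set.range e).encard ≤ ((I.card + t.ncard : ℕ) : ℕ∞) := by
    refine (Set.encard_union_le _ _).trans ?_
    rw [hencard, htenc]
    push_cast
    rw [add_comm]
  have hunion : (matroid (KK ℂ) E).Indep (t ∪ Set.range e) :=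
    Matroid.IsRkFinite.indep_of_encard_le_eRk
      (Matroid.eRk_lt_top_iff.1 (lt_of_le_of_lt ((matroid (KK ℂ) E).eRk_le_encard _)
        (Set.encard_lt_top_iff.2 hfinu))) (hle.trans hcard)
  have hdisj : Disjoint t (Set.range e) := by
    rw [Set.disjoint_iff_inter_eq_empty, ← Set.encard_eq_zero]
    have h1 := Set.encard_union_add_encard_inter t (Set.range e)
    have h2 : ((I.card + t.ncard : ℕ) : ℕ∞) ≤ (t ∪ Set.range e).encard :=
      hcard.trans ((matroid (KK ℂ) E).eRk_le_encard _)
    have h3 : (t ∪ Set.range e).encard = ((I.card + t.ncard : ℕ) : ℕ∞) := le_antisymm hle h2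
    rw [h3, hencard, htenc] at h1
    have h4 : (t ∩ Set.range e).Finite := htf.subset Set.inter_subset_left
    rw [← h4.cast_ncard_eq] at h1 ⊢
    have h5 : I.card + t.ncard + (t ∩ Set.range e).ncard = t.ncard + I.card := by
      exact_mod_cast h1
    have h6 : (t ∩ Set.range e).ncard = 0 := by omega
    rw [h6]
    rfl
  -- algebraic independence over the algebraic closure
  have hsum : AlgebraicIndependent (KK ℂ) (Sum.elim e ((↑) : t → E)) := by
    have hinj : Function.Injective (Sum.elim e ((↑) : t → E)) := by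
      refine Function.Injective.sumElim hind.injective Subtype.val_injective ?_
      intro l x h
      exact Set.disjoint_left.1 hdisj x.2 ⟨l, h⟩
    rw [← algebraicIndependent_subtype_range hinj]
    have h1 : Set.range (Sum.elim e ((↑) : t → E)) = t ∪ Set.range e := by
      rw [Set.Sum.elim_range, Subtype.range_coe, Set.union_comm]
    rw [h1]
    exact hunion
  have h1 := (sumElim_iff.1 hsum).2
  rw [Subtype.range_coe] at h1
  have h2 := h1.subalgebraAlgebraicClosure
  -- transfer to `R`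
  let B := Subalgebra.algebraicClosure (Algebra.adjoin (KK ℂ) t) E
  let θ' : R →+* B := θ.codRestrict B fun r => hclo (hθ r)
  have hθ' : (algebraMap B E).comp θ' = θ := by
    ext r
    rfl
  have h3 : MvPolynomial.aeval e (MvPolynomial.map θ' P) = 0 := by
    rw [MvPolynomial.aeval_def, MvPolynomial.eval₂_map, hθ']
    exact hP
  have h4 : MvPolynomial.map θ' P = 0 := (algebraicIndependent_iff.1 h2) _ h3
  rw [← hθ', ← MvPolynomial.map_map, h4, map_zero]

end PsEmb

end Pool.Agent.TH600.LM
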