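import Pool.Agent.TH600.LC.Diff

/-!
# Linear differential equations over differential rings

`F` is a differential field over the complex numbers and `B` is a differential subring. The elements
of `F` which satisfy a nontrivial linear differential equation with coefficients in `B` form a ring.
-/

set_option autoImplicit false

namespace Pool.Agent.TH600.LM

open Finset AlgebraicIndependent Module
open Pool.Agent.TH600.LC

variable {F : Type} [Field F] [Algebra ℂ F]

/-- `x` satisfies a nontrivial linear differential equation with coefficients in `B`. -/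
def LinF (D : Derivation ℂ F F) (B : Subalgebra ℂ F) (x : F) : Prop :=
  ∃ (m : ℕ) (a : ℕ → F), (∀ k, a k ∈ B) ∧ (∃ k ≤ m, a k ≠ 0) ∧
    ∑ k ∈ range (m + 1), a k * (D^[k] x) = 0

/-- the field of fractions -/
def FB (B : Subalgebra ℂ F) : Subfield F := Subfield.closure (B : Set F)

theorem mem_FB {B : Subalgebra ℂ F} {c : F} :
    c ∈ FB B ↔ ∃ y ∈ B, ∃ z ∈ B, z ≠ 0 ∧ y / z = c := by
  have h0 : Subring.closure (B : Set F) = B.toSubring := Subring.closure_eq B.toSubring
  rw [FB, Subfield.mem_closure_iff, h0]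
  constructor
  · rintro ⟨y, hy, z, hz, h⟩
    by_cases hz0 : z = 0
    · rw [hz0, div_zero] at h
      exact ⟨0, B.zero_mem, 1, B.one_mem, one_ne_zero, by rw [zero_div, h]⟩
    · exact ⟨y, hy, z, hz, hz0, h⟩
  · rintro ⟨y, hy, z, hz, -, h⟩
    exact ⟨y, hy, z, hz, h⟩

theorem subset_FB {B : Subalgebra ℂ F} {c : F} (h : c ∈ B) : c ∈ FB B :=
  mem_FB.2 ⟨c, h, 1, B.one_mem, one_ne_zero, div_one c⟩

theorem D_FB {D : Derivation ℂ F F} {B : Subalgebra ℂ F} (hB : ∀ b ∈ B, D b ∈ B) {c : F}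
    (h : c ∈ FB B) : D c ∈ FB B := by
  obtain ⟨y, hy, z, hz, hz0, rfl⟩ := mem_FB.1 h
  refine mem_FB.2 ⟨z * D y - y * D z, B.sub_mem (B.mul_mem hz (hB y hy)) (B.mul_mem hy (hB z hz)),
    z * z, B.mul_mem hz hz, mul_ne_zero hz0 hz0, ?_⟩
  have h1 : D (y / z * z) = (y / z) • D z + z • D (y / z) := D.leibniz _ _
  rw [div_mul_cancel₀ _ hz0, smul_eq_mul, smul_eq_mul] at h1
  rw [div_eq_iff (mul_ne_zero hz0 hz0), h1]
  field_simp
  ring

/-- `x` lies in a finite-dimensional space which is stable under the derivation. -/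
def FinDF (D : Derivation ℂ F F) (B : Subalgebra ℂ F) (x : F) : Prop :=
  ∃ V : Submodule (FB B) F, V.FG ∧ x ∈ V ∧ ∀ v ∈ V, D v ∈ V

variable {D : Derivation ℂ F F} {B : Subalgebra ℂ F}

theorem FinDF.add {x x' : F} (h : FinDF D B x) (h' : FinDF D B x') : FinDF D B (x + x') := by
  obtain ⟨V, h1, h2, h3⟩ := h
  obtain ⟨V', h1', h2', h3'⟩ := h'
  refine ⟨V ⊔ V', h1.sup h1', ?_, fun v hv => ?_⟩
  · exact Submodule.add_mem_sup h2 h2'
  · obtain ⟨a, ha, b, hb, rfl⟩ := Submodule.mem_sup.1 hv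
    rw [map_add]
    exact Submodule.add_mem_sup (h3 a ha) (h3' b hb)

theorem FinDF.mul {x x' : F} (h : FinDF D B x) (h' : FinDF D B x') : FinDF D B (x * x') := by
  obtain ⟨V, h1, h2, h3⟩ := h
  obtain ⟨V', h1', h2', h3'⟩ := h'
  refine ⟨V * V', h1.mul h1', Submodule.mul_mem_mul h2 h2', fun v hv => ?_⟩
  refine Submodule.mul_induction_on hv (fun a ha b hb => ?_) fun a b ha hb => ?_
  · rw [Derivation.leibniz, smul_eq_mul, smul_eq_mul, mul_comm b]
    exact (V * V').add_mem (Submodule.mul_mem_mul ha (h3' b hb))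
      (Submodule.mul_mem_mul (h3 a ha) hb)
  · rw [map_add]
    exact (V * V').add_mem ha hb

theorem span_stable (hB : ∀ b ∈ B, D b ∈ B) {S : Set F}
    (hS : ∀ s ∈ S, D s ∈ Submodule.span (FB B) S) :
    ∀ v ∈ Submodule.span (FB B) S, D v ∈ Submodule.span (FB B) S := by
  intro v hv
  induction hv using Submodule.span_induction with
  | mem v hv => exact hS v hv
  | zero =>
    rw [map_zero]
    exact Submodule.zero_mem _
  | add u v _ _ h1 h2 =>
    rw [map_add]
    exact Submodule.add_mem _ h1 h2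
  | smul c v hv h1 =>
    have e1 : c • v = (c : F) * v := rfl
    have e2 : (⟨D c, D_FB hB c.2⟩ : FB B) • v = D (c : F) * v := rfl
    have e3 : c • D v = (c : F) * D v := rfl
    rw [e1, Derivation.leibniz, smul_eq_mul, smul_eq_mul, mul_comm v, ← e2, ← e3]
    exact Submodule.add_mem _ (Submodule.smul_mem _ _ h1) (Submodule.smul_mem _ _ hv)

/-- the leading term -/
theorem exists_lead {x : F} (h : LinF D B x) : ∃ (l : ℕ) (a : ℕ → F), (∀ k, a k ∈ B) ∧ a l ≠ 0 ∧
    ∑ k ∈ range (l + 1), a k * (D^[k] x) = 0 := by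
  classical
  obtain ⟨m, a, haB, ⟨k0, hk0, hn⟩, h⟩ := h
  let T := (Finset.range (m + 1)).filter fun k => a k ≠ 0
  have hT : T.Nonempty :=
    ⟨k0, Finset.mem_filter.mpr ⟨Finset.mem_range.mpr (Nat.lt_succ_of_le hk0), hn⟩⟩
  set l := T.max' hT with hl
  have hlT : l ∈ T := T.max'_mem hT
  have hlm : l ≤ m := Nat.lt_succ_iff.mp (Finset.mem_range.mp (Finset.mem_filter.mp hlT).1)
  have hlN : a l ≠ 0 := (Finset.mem_filter.mp hlT).2
  have hbig : ∀ k ∈ Finset.range (m + 1), k ∉ Finset.range (l + 1) → a k = 0 := by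
    intro k hk hkl
    by_contra hcon
    have : k ∈ T := Finset.mem_filter.mpr ⟨hk, hcon⟩
    have h2 := T.le_max' k this
    rw [Finset.mem_range] at hkl
    omega
  have hsub : Finset.range (l + 1) ⊆ Finset.range (m + 1) := by
    intro k hk
    rw [Finset.mem_range] at hk ⊢
    omega
  refine ⟨l, a, haB, hlN, ?_⟩
  rw [Finset.sum_subset hsub (fun k hk hk' => by rw [hbig k hk hk', zero_mul])]
  exact h

theorem finDF_of_linF (hB : ∀ b ∈ B, D b ∈ B) {x : F} (h : LinF D B x) : ∃ l : ℕ,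
    FinDF D B x ∧ ∀ j, D^[j] x ∈ Submodule.span (FB B) ((fun j => D^[j] x) '' Set.Iio l) := by
  obtain ⟨l, a, haB, hl, hrel⟩ := exists_lead h
  set V := Submodule.span (FB B) ((fun j => D^[j] x) '' Set.Iio l) with hV
  have hsm : ∀ (c : F) (hc : c ∈ FB B) (v : F), v ∈ V → c * v ∈ V := by
    intro c hc v hv
    exact V.smul_mem (⟨c, hc⟩ : FB B) hv
  have hYl : D^[l] x ∈ V := by
    rw [Finset.sum_range_succ] at hrel
    have h2 : D^[l] x = ∑ k ∈ Finset.range l, (-(a l)⁻¹ * a k) * D^[k] x := by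
      have h3 : ∑ k ∈ Finset.range l, (-(a l)⁻¹ * a k) * D^[k] x =
          -(a l)⁻¹ * ∑ k ∈ Finset.range l, a k * D^[k] x := by
        rw [Finset.mul_sum]
        exact Finset.sum_congr rfl fun k _ => by ring
      rw [h3, eq_neg_of_add_eq_zero_left hrel]
      field_simp
    rw [h2]
    refine V.sum_mem fun k hk => hsm _ ?_ _ ?_
    · exact (FB B).mul_mem ((FB B).neg_mem ((FB B).inv_mem (subset_FB (haB l))))
        (subset_FB (haB k))
    · exact Submodule.subset_span ⟨k, Finset.mem_range.1 hk, rfl⟩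
  have hst : ∀ v ∈ V, D v ∈ V := by
    refine span_stable hB ?_
    rintro _ ⟨j, hj, rfl⟩
    change D (D^[j] x) ∈ V
    rw [← Function.iterate_succ_apply' (D : F → F) j x]
    have hj' : j < l := hj
    rcases Nat.lt_or_ge (j + 1) l with h1 | h1
    · exact Submodule.subset_span ⟨j + 1, h1, rfl⟩
    · have h2 : j.succ = l := by omega
      rw [h2]
      exact hYl
  have h0 : x ∈ V := by
    rcases Nat.eq_zero_or_pos l with h1 | h1
    · rw [h1] at hYl
      exact hYl
    · exact Submodule.subset_span ⟨0, h1, rfl⟩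
  refine ⟨l, ⟨V, Submodule.fg_span ((Set.finite_Iio l).image _), h0, hst⟩, fun j => ?_⟩
  induction j with
  | zero => exact h0
  | succ j ih =>
    rw [Function.iterate_succ_apply']
    exact hst _ ih

theorem linF_of_finDF {x : F} (h : FinDF D B x) : LinF D B x := by
  classical
  obtain ⟨V, hfg, hfV, hst⟩ := h
  have hYV : ∀ j, D^[j] x ∈ V := by
    intro j
    induction j with
    | zero => exact hfV
    | succ j ih =>
      rw [Function.iterate_succ_apply']
      exact hst _ ih
  have hfin : Module.Finite (FB B) V := Module.Finite.iff_fg.2 hfg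
  set N := Module.finrank (FB B) V with hN
  have hdep : ¬ LinearIndependent (FB B) (fun i : Fin (N + 1) => (⟨D^[i] x, hYV i⟩ : V)) := by
    intro h1
    have h2 := h1.fintype_card_le_finrank
    rw [Fintype.card_fin] at h2
    omega
  rw [Fintype.not_linearIndependent_iff] at hdep
  obtain ⟨c, hc, i0, hi0⟩ := hdep
  have hc' : ∀ i, ∃ y ∈ B, ∃ z ∈ B, z ≠ 0 ∧ y / z = (c i : F) := fun i => mem_FB.1 (c i).2
  choose y hy z hz hz0 hyz using hc'
  let e : Fin (N + 1) → F := fun i => y i * ∏ l ∈ Finset.univ.erase i, z l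
  have he : ∀ i, e i = (∏ l, z l) * (c i : F) := by
    intro i
    have h1 := Finset.mul_prod_erase Finset.univ z (Finset.mem_univ i)
    rw [← h1, ← hyz i]
    simp only [e]
    have h2 := hz0 i
    field_simp
  have hprod : (∏ l, z l) ≠ 0 := Finset.prod_ne_zero_iff.2 fun l _ => hz0 l
  have hsum : ∑ i : Fin (N + 1), (c i : F) * D^[i] x = 0 := by
    have h3 := congrArg (Submodule.subtype V) hc
    rw [map_sum, map_zero] at h3
    rw [← h3]
    refine Finset.sum_congr rfl fun i _ => ?_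
    rfl
  refine ⟨N, fun j => if h : j < N + 1 then e ⟨j, h⟩ else 0, fun j => ?_, ⟨i0, by omega, ?_⟩, ?_⟩
  · beta_reduce
    by_cases hj : j < N + 1
    · rw [dif_pos hj]
      exact B.mul_mem (hy _) (B.prod_mem fun l _ => hz l)
    · rw [dif_neg hj]
      exact B.zero_mem
  · beta_reduce
    rw [dif_pos i0.2, he]
    refine mul_ne_zero hprod ?_
    intro h0
    exact hi0 (Subtype.ext h0)
  · rw [← Fin.sum_univ_eq_sum_range (fun k =>
      (if h : k < N + 1 then e ⟨k, h⟩ else 0) * D^[k] x)]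
    have h4 : ∑ i : Fin (N + 1), (if h : (i : ℕ) < N + 1 then e ⟨i, h⟩ else 0) * D^[i] x =
        (∏ l, z l) * ∑ i : Fin (N + 1), (c i : F) * D^[i] x := by
      rw [Finset.mul_sum]
      refine Finset.sum_congr rfl fun i _ => ?_
      rw [dif_pos i.2, he]
      ring
    rw [h4, hsum, mul_zero]

theorem LinF.add (hB : ∀ b ∈ B, D b ∈ B) {x x' : F} (h : LinF D B x) (h' : LinF D B x') :
    LinF D B (x + x') := by
  obtain ⟨_, h1, _⟩ := finDF_of_linF hB h
  obtain ⟨_, h2, _⟩ := finDF_of_linF hB h'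
  exact linF_of_finDF (h1.add h2)

theorem LinF.mul (hB : ∀ b ∈ B, D b ∈ B) {x x' : F} (h : LinF D B x) (h' : LinF D B x') :
    LinF D B (x * x') := by
  obtain ⟨_, h1, _⟩ := finDF_of_linF hB h
  obtain ⟨_, h2, _⟩ := finDF_of_linF hB h'
  exact linF_of_finDF (h1.mul h2)

theorem linF_const (c : ℂ) : LinF D B (algebraMap ℂ F c) := by
  refine ⟨1, fun k => if k = 1 then 1 else 0, fun k => ?_, ⟨1, le_rfl, by simp⟩, ?_⟩
  · beta_reduce
    by_cases hk : k = 1
    · rw [if_pos hk]
      exact B.one_mem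
    · rw [if_neg hk]
      exact B.zero_mem
  · rw [Finset.sum_range_succ, Finset.sum_range_one]
    simp

theorem FB_le_clo {S : Set F} (hB : (B : Set F) ⊆ clo ℂ S) {c : F} (hc : c ∈ FB B) :
    c ∈ clo ℂ S := by
  obtain ⟨y, hy, z, hz, -, rfl⟩ := mem_FB.1 hc
  rw [div_eq_mul_inv]
  exact (clo ℂ S).mul_mem (hB hy) (inv_mem_clo (hB hz))

/-- Solutions of linear differential equations over a ring of finite transcendence degree are
differentially algebraic. -/
theorem LinF.dalg (hB : ∀ b ∈ B, D b ∈ B) {T : Set F} (hT : T.Finite)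
    (hBT : (B : Set F) ⊆ clo ℂ T) {x : F} (h : LinF D B x) :
    ∃ n, ¬ AlgebraicIndependent ℂ (fun i : Fin n => D^[i] x) := by
  classical
  obtain ⟨l, -, hl⟩ := finDF_of_linF hB h
  set S : Set F := T ∪ (fun j => D^[j] x) '' Set.Iio l with hS
  have hSf : S.Finite := hT.union ((Set.finite_Iio l).image _)
  have hBS : (B : Set F) ⊆ clo ℂ S := hBT.trans (clo_mono Set.subset_union_left)
  have hV : ∀ v ∈ Submodule.span (FB B) ((fun j => D^[j] x) '' Set.Iio l), v ∈ clo ℂ S := by
    intro v hv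
    induction hv using Submodule.span_induction with
    | mem v hv => exact subset_clo _ (Or.inr hv)
    | zero => exact (clo ℂ S).zero_mem
    | add u v _ _ h1 h2 => exact (clo ℂ S).add_mem h1 h2
    | smul c v hv h1 => exact (clo ℂ S).mul_mem (FB_le_clo hBS c.2) h1
  refine ⟨S.ncard + 1, fun hind => ?_⟩
  have h1 : (matroid ℂ F).Indep (Set.range fun i : Fin (S.ncard + 1) => D^[i] x) := by
    rw [matroid_indep_iff]
    exact hind.to_subtype_range
  have h2 : (Set.range fun i : Fin (S.ncard + 1) => D^[i] x).encard ≤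
      (matroid ℂ F).eRk (clo ℂ S : Set F) := by
    refine h1.encard_le_eRk_of_subset ?_
    rintro _ ⟨i, rfl⟩
    exact hV _ (hl i)
  rw [eRk_clo] at h2
  have h3 : (Set.range fun i : Fin (S.ncard + 1) => D^[i] x).encard = (S.ncard + 1 : ℕ) := by
    rw [← Set.image_univ, hind.injective.encard_image, Set.encard_univ]
    simp
  have h4 := h2.trans ((matroid ℂ F).eRk_le_encard S)
  rw [h3, ← hSf.cast_ncard_eq] at h4
  have h5 : S.ncard + 1 ≤ S.ncard := by exact_mod_cast h4
  omega

end Pool.Agent.TH600.LM
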