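import Pool.Agent.TH600.LM.Loc
import Pool.Agent.TH600.LM.Lin
import Pool.Agent.TH600.LC.FamP
import Pool.Agent.TH143.EL.Exa

/-!
# Meromorphic functions with linear differential equations form a ring
-/

set_option autoImplicit false

namespace Pool.Agent.TH600.LM

open Finset AlgebraicIndependent Module Filter Topology
open Pool.Agent.TH600.LC
open Pool.Agent.TH143.EL

theorem mero_iter {u : ℂ → ℂ} (hu : Meromorphic u) (k : ℕ) : Meromorphic (iteratedDeriv k u) := by
  rw [iteratedDeriv_eq_iterate]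
  exact hu.iterated_deriv

theorem MD_iter {u : ℂ → ℂ} (hu : Meromorphic u) (k : ℕ) :
    MDer^[k] (cl u hu) = cl (iteratedDeriv k u) (mero_iter hu k) := by
  induction k with
  | zero =>
    rw [Function.iterate_zero, id_eq, cl_eq]
    exact Eventually.of_forall fun z => by rw [iteratedDeriv_zero]
  | succ k ih =>
    rw [Function.iterate_succ_apply', ih, MDer_apply, MD_cl, cl_eq]
    exact Eventually.of_forall fun z => by rw [iteratedDeriv_succ]

theorem cl_sum {n : ℕ} {v : ℕ → ℂ → ℂ} (hv : ∀ k, Meromorphic (v k)) :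
    ∑ k ∈ range n, cl (v k) (hv k) = 0 ↔ ∀ᶠ z in codiscrete ℂ, ∑ k ∈ range n, v k z = 0 := by
  have h1 : ∀ n, ∃ h : Meromorphic (fun z => ∑ k ∈ range n, v k z),
      ∑ k ∈ range n, cl (v k) (hv k) = cl (fun z => ∑ k ∈ range n, v k z) h := by
    intro n
    induction n with
    | zero =>
      refine ⟨by simpa using Meromorphic.const (0 : ℂ), ?_⟩
      rw [Finset.sum_range_zero]
      symm
      rw [cl_eq_zero]
      exact Eventually.of_forall fun z => by simp
    | succ n ih =>
      obtain ⟨h, ih⟩ := ih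
      have h2 : (fun z => ∑ k ∈ range (n + 1), v k z) =
          (fun z => ∑ k ∈ range n, v k z) + v n := by
        funext z
        rw [Finset.sum_range_succ]
        rfl
      refine ⟨by rw [h2]; exact h.add (hv n), ?_⟩
      rw [Finset.sum_range_succ, ih, cl_add, cl_eq]
      exact Eventually.of_forall fun z => (congrFun h2 z).symm
  obtain ⟨h, h2⟩ := h1 n
  rw [h2, cl_eq_zero]

theorem mder_stable {B : Subalgebra ℂ (ℂ → ℂ)} (hB : TrOne B) :
    ∀ b ∈ BCl hB, MDer b ∈ BCl hB := fun b hb => BCl_MD hB b hb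

theorem linF_iff {B : Subalgebra ℂ (ℂ → ℂ)} (hB : TrOne B) {u : ℂ → ℂ} (hu : Meromorphic u) :
    LinB B u ↔ LinF MDer (BCl hB) (cl u hu) := by
  have key : ∀ (m : ℕ) (a : ℕ → ℂ → ℂ) (ha : ∀ k, a k ∈ B),
      (∑ k ∈ range (m + 1), cl (a k) (hB.mero _ (ha k)) * (MDer^[k] (cl u hu)) = 0 ↔
        ∀ᶠ z in codiscrete ℂ, ∑ k ∈ range (m + 1), a k z * iteratedDeriv k u z = 0) := by
    intro m a ha
    have h1 := cl_sum (n := m + 1) (v := fun k => a k * iteratedDeriv k u)
      (fun k => (hB.mero _ (ha k)).mul (mero_iter hu k))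
    have h2 : ∀ k, cl (a k) (hB.mero _ (ha k)) * (MDer^[k] (cl u hu)) =
        cl (a k * iteratedDeriv k u) ((hB.mero _ (ha k)).mul (mero_iter hu k)) := by
      intro k
      rw [MD_iter, cl_mul]
    simp only [h2]
    rw [h1]
    rfl
  constructor
  · rintro ⟨m, a, ha, ⟨k0, hk0, hne⟩, h⟩
    refine ⟨m, fun k => cl (a k) (hB.mero _ (ha k)), fun k => ⟨a k, ha k, rfl⟩, ⟨k0, hk0, ?_⟩,
      (key m a ha).2 h⟩
    intro h0
    exact hne (cl_eq_zero.1 h0)
  · rintro ⟨m, a, ha, ⟨k0, hk0, hne⟩, h⟩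
    have ha' : ∀ k, ∃ (b : ℂ → ℂ) (hb : b ∈ B), a k = cl b (hB.mero b hb) := fun k => ha k
    choose b hb hab using ha'
    refine ⟨m, b, hb, ⟨k0, hk0, fun h0 => hne ?_⟩, (key m b hb).1 ?_⟩
    · rw [hab, cl_eq_zero]
      exact h0
    · rw [← h]
      exact Finset.sum_congr rfl fun k _ => by rw [hab]

/-- The ring of the meromorphic functions with linear differential equations over `B`. -/
def LinRing {B : Subalgebra ℂ (ℂ → ℂ)} (hB : TrOne B) : Subalgebra ℂ (ℂ → ℂ) where
  carrier := {u | Meromorphic u ∧ LinB B u}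
  mul_mem' := by
    rintro f g ⟨hf, hf'⟩ ⟨hg, hg'⟩
    refine ⟨hf.mul hg, (linF_iff hB (hf.mul hg)).2 ?_⟩
    rw [← cl_mul hf hg]
    exact LinF.mul (mder_stable hB) ((linF_iff hB hf).1 hf') ((linF_iff hB hg).1 hg')
  add_mem' := by
    rintro f g ⟨hf, hf'⟩ ⟨hg, hg'⟩
    refine ⟨hf.add hg, (linF_iff hB (hf.add hg)).2 ?_⟩
    rw [← cl_add hf hg]
    exact LinF.add (mder_stable hB) ((linF_iff hB hf).1 hf') ((linF_iff hB hg).1 hg')
  algebraMap_mem' := by
    intro c
    refine ⟨Meromorphic.const c, (linF_iff hB (Meromorphic.const c)).2 ?_⟩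
    exact linF_const c

theorem mem_linRing {B : Subalgebra ℂ (ℂ → ℂ)} {hB : TrOne B} {u : ℂ → ℂ} :
    u ∈ LinRing hB ↔ Meromorphic u ∧ LinB B u := Iff.rfl

theorem id_mem_linRing {B : Subalgebra ℂ (ℂ → ℂ)} (hB : TrOne B) :
    (fun z : ℂ => z) ∈ LinRing hB := by
  refine ⟨fun z => analyticAt_id.meromorphicAt, 2, fun k => if k = 2 then 1 else 0, fun k => ?_,
    ⟨2, le_rfl, ?_⟩, ?_⟩
  · beta_reduce
    by_cases hk : k = 2
    · rw [if_pos hk]
      exact B.one_mem
    · rw [if_neg hk]
      exact B.zero_mem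
  · intro h
    obtain ⟨z, hz⟩ := h.exists
    simp at hz
  · refine Eventually.of_forall fun z => ?_
    have h1 : iteratedDeriv 2 (fun z : ℂ => z) z = 0 := by
      rw [iteratedDeriv_succ, iteratedDeriv_one]
      have h2 : deriv (fun z : ℂ => z) = fun _ => 1 := funext fun z => deriv_id z
      rw [h2]
      exact deriv_const z 1
    simp [Finset.sum_range_succ, h1]

theorem poly_mem_linRing {B : Subalgebra ℂ (ℂ → ℂ)} (hB : TrOne B) (p : Polynomial ℂ) :
    (fun z => p.eval z) ∈ LinRing hB := by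
  have h1 : CoefRing (∅ : Set (ℂ → ℂ)) ≤ LinRing hB := by
    refine Algebra.adjoin_le ?_
    rintro u (rfl | hu)
    · exact id_mem_linRing hB
    · exact absurd hu (Set.notMem_empty u)
  exact h1 (poly_mem_coef ∅ p)

/-- The ring `B` has transcendence degree at most one. -/
theorem exists_T_BCl {B : Subalgebra ℂ (ℂ → ℂ)} (hB : TrOne B) :
    ∃ T : Set MK, T.Finite ∧ ((BCl hB : Subalgebra ℂ MK) : Set MK) ⊆ clo ℂ T := by
  by_cases h : ∃ x ∈ BCl hB, Transcendental ℂ x
  · obtain ⟨x, hx, ht⟩ := h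
    refine ⟨{x}, Set.finite_singleton x, fun y hy => ?_⟩
    by_contra hcon
    have hxy : x ≠ y := by
      rintro rfl
      exact hcon (subset_clo _ (Set.mem_singleton x))
    have h1 : (matroid ℂ MK).Indep {x} := by
      rw [matroid_indep_iff]
      have h2 := (algebraicIndependent_unique_type_iff (R := ℂ)
        (x := fun _ : Unit => x)).2 ht
      have h3 := h2.to_subtype_range
      rwa [Set.range_const] at h3
    rw [coe_clo] at hcon
    have h2 : (matroid ℂ MK).Indep (insert y {x}) :=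
      ((h1.notMem_closure_iff (Set.mem_univ _)).1 hcon).1
    refine BCl_dep hB x hx y hy ?_
    rw [matroid_indep_iff] at h2
    have hinj : Function.Injective ![x, y] := by
      intro i j hij
      fin_cases i <;> fin_cases j <;> simp_all
    rw [← algebraicIndependent_subtype_range hinj]
    have h3 : Set.range ![x, y] = insert y {x} := by
      rw [Matrix.range_cons, Matrix.range_cons, Matrix.range_empty, Set.union_empty]
      ext w
      simp [or_comm]
    rw [h3]
    exact h2
  · push Not at h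
    refine ⟨∅, Set.finite_empty, fun y hy => ?_⟩
    have h1 : IsAlgebraic ℂ y := by
      by_contra h2
      exact h y hy h2
    exact mem_clo.2 (h1.extendScalars (R := ℂ) (S := Algebra.adjoin ℂ (∅ : Set MK))
      (FaithfulSMul.algebraMap_injective ℂ _))

theorem an_eval {σ : Type} [Fintype σ] {v : σ → ℂ → ℂ} {x : ℂ} (hv : ∀ j, AnalyticAt ℂ (v j) x)
    (P : MvPolynomial σ ℂ) : AnalyticAt ℂ (fun z => MvPolynomial.eval (fun j => v j z) P) x := by
  induction P using MvPolynomial.induction_on with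
  | C a => simpa using analyticAt_const
  | add p q hp hq =>
    simp only [map_add]
    exact hp.add hq
  | mul_X p j hp =>
    simp only [map_mul, MvPolynomial.eval_X]
    exact hp.mul (hv j)

theorem near_of_codis {u : ℂ → ℂ} {x : ℂ} (hu : AnalyticAt ℂ u x)
    (h : ∀ᶠ z in codiscrete ℂ, u z = 0) : ∀ᶠ z in 𝓝 x, u z = 0 := by
  have h1 : u =ᶠ[𝓝[≠] x] fun _ => 0 := codis_ev h x
  exact (hu.continuousAt.eventuallyEq_nhds_iff_eventuallyEq_nhdsNE continuousAt_const).1 h1

theorem dAlg0_of_linB {B : Subalgebra ℂ (ℂ → ℂ)} (hB : TrOne B) {u : ℂ → ℂ}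
    (hu : Meromorphic u) (hl : LinB B u) (ha : AnalyticAt ℂ u 0) : DAlg0 u := by
  obtain ⟨T, hT, hBT⟩ := exists_T_BCl hB
  obtain ⟨n, hn⟩ := ((linF_iff hB hu).1 hl).dalg (mder_stable hB) hT hBT
  rw [algebraicIndependent_iff] at hn
  push Not at hn
  obtain ⟨P, hP, hP0⟩ := hn
  have h1 := aeval_cl (fun (i : Fin n) => iteratedDeriv i u) (fun i => mero_iter hu i) P
  have h2 : (fun i : Fin n => MDer^[i] (cl u hu)) =
      fun i : Fin n => cl (iteratedDeriv i u) (mero_iter hu i) := funext fun i => MD_iter hu i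
  rw [h2, h1] at hP
  have h3 := cl_eq_zero.1 hP
  refine ⟨n, MvPolynomial.map Polynomial.C P, ?_, ?_⟩
  · intro h0
    exact hP0 (MvPolynomial.map_injective _ Polynomial.C_injective (by rw [h0, map_zero]))
  · have h4 : ∀ z, MvPolynomial.eval₂ (Polynomial.evalRingHom z)
        (fun i : Fin n => iteratedDeriv i u z) (MvPolynomial.map Polynomial.C P) =
        MvPolynomial.eval (fun i : Fin n => iteratedDeriv i u z) P := by
      intro z
      rw [MvPolynomial.eval₂_map, MvPolynomial.eval]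
      have h5 : (Polynomial.evalRingHom z).comp Polynomial.C = RingHom.id ℂ := by
        ext c
        simp
      rw [h5]
      rfl
    simp only [h4]
    exact near_of_codis (an_eval (fun i : Fin n => an_iter ha i) P) h3

end Pool.Agent.TH600.LM
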