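import Pool.Agent.TH600.LM.Brg
import Pool.Agent.TH143.EL.Main3

/-!
# Dichotomy for curves with coordinates in the ring generated by meromorphic functions with linear
differential equations and functions with gaps
-/

set_option autoImplicit false

namespace Pool.Agent.TH600.LM

open Finset Filter Topology MvPolynomial
open scoped LinearAlgebra.Projectivization
open Pool.Agent.TH600.LC
open Pool.Agent.TH143.EL
open Pool.Agent.TH143.HE (RatCurvesIn IsPtP NonConst)

/-- the identity theorem on the set where finitely many meromorphic functions are analytic -/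
theorem zero_on {s : ℕ} {y : ℂ → Fin s → ℂ} (my : ∀ i, Meromorphic (fun z => y z i))
    {F : ℂ → ℂ} (hF : ∀ z, (∀ i, AnalyticAt ℂ (fun z => y z i) z) → AnalyticAt ℂ F z) {z1 : ℂ}
    (hz1 : ∀ i, AnalyticAt ℂ (fun z => y z i) z1) (h : ∀ᶠ z in 𝓝 z1, F z = 0) {z : ℂ}
    (hz : ∀ i, AnalyticAt ℂ (fun z => y z i) z) : F z = 0 := by
  set Ω : Set ℂ := {z | ∀ i, AnalyticAt ℂ (fun z => y z i) z} with hΩ
  have hΩc : Ω ∈ codiscrete ℂ := eventually_all.2 fun i => mero_an (my i)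
  exact AnalyticOnNhd.eqOn_zero_of_preconnected_of_eventuallyEq_zero
    (fun z hz => hF z hz : AnalyticOnNhd ℂ F Ω) (codis_pre hΩc) hz1 h hz

section nu

variable {s m : ℕ} (y : ℂ → Fin s → ℂ) (a : Polynomial ℂ) (I : Finset (Fin m))
    (p : Fin m → Polynomial ℂ) (b : Fin m → Fin m → Polynomial ℂ)

theorem nu_mem {S : Subalgebra ℂ (ℂ → ℂ)} (hp : ∀ q : Polynomial ℂ, (fun z => q.eval z) ∈ S)
    (hy : ∀ i, (fun z => y z i) ∈ S) (d : ℕ) (H : MvPolynomial (Fin s ⊕ Fin m) ℂ)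
    (x : Fin m → ℂ) : (fun z => nu y a I p b d H x z) ∈ S := by
  have h1 : (fun z => nu y a I p b d H x z) = hval d (algebraMap ℂ (ℂ → ℂ))
      (fun z => a.eval z) (Sum.elim (fun i => (fun z => a.eval z) * fun z => y z i)
        (fun i => (fun z => (p i).eval z) + ∑ l ∈ I, (fun z => (b i l).eval z) *
          algebraMap ℂ (ℂ → ℂ) (x l))) H := by
    funext z
    have h0 : hval d (algebraMap ℂ (ℂ → ℂ))
      (fun z => a.eval z) (Sum.elim (fun i => (fun z => a.eval z) * fun z => y z i)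
        (fun i => (fun z => (p i).eval z) + ∑ l ∈ I, (fun z => (b i l).eval z) *
          algebraMap ℂ (ℂ → ℂ) (x l))) H z = (Pi.evalRingHom (fun _ : ℂ => ℂ) z)
      (hval d (algebraMap ℂ (ℂ → ℂ))
      (fun z => a.eval z) (Sum.elim (fun i => (fun z => a.eval z) * fun z => y z i)
        (fun i => (fun z => (p i).eval z) + ∑ l ∈ I, (fun z => (b i l).eval z) *
          algebraMap ℂ (ℂ → ℂ) (x l))) H) := rfl
    rw [h0, map_hval, nu]
    have e1 : (Pi.evalRingHom (fun _ : ℂ => ℂ) z).comp (algebraMap ℂ (ℂ → ℂ)) =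
        RingHom.id ℂ := by
      ext c
      rfl
    rw [e1]
    congr 1
    funext i
    rcases i with i | i
    · rfl
    · rw [Sum.elim_inr, Sum.elim_inr]
      simp only [Pi.evalRingHom_apply, Pi.add_apply, Finset.sum_apply, Pi.mul_apply]
      rfl
  rw [h1]
  refine hval_mem S d (hp _) (fun i => ?_) _
  rcases i with i | i
  · exact S.mul_mem (hp _) (hy i)
  · exact S.add_mem (hp _) (S.sum_mem fun l _ => S.mul_mem (hp _) (S.algebraMap_mem _))

theorem nu_an {z1 : ℂ} (hy : ∀ i, AnalyticAt ℂ (fun z => y z i) z1) (d : ℕ)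
    (H : MvPolynomial (Fin s ⊕ Fin m) ℂ) (x : Fin m → ℂ) :
    AnalyticAt ℂ (fun z => nu y a I p b d H x z) z1 := by
  let S : Subalgebra ℂ (ℂ → ℂ) :=
    { carrier := {f | AnalyticAt ℂ f z1}
      mul_mem' := fun h1 h2 => h1.mul h2
      add_mem' := fun h1 h2 => h1.add h2
      algebraMap_mem' := fun c => analyticAt_const }
  exact nu_mem (S := S) y a I p b (fun q => q.differentiable.analyticAt z1) hy d H x

end nu

/-- The data of a curve with coordinates in the ring. -/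
structure Mfm {N : ℕ} (h : ℂ → Fin N → ℂ) (s m : ℕ) where
  /-- coefficient functions -/
  y : ℂ → Fin s → ℂ
  /-- functions with gaps -/
  g : ℂ → Fin m → ℂ
  /-- polynomials -/
  Q : Fin N → MvPolynomial (Fin s ⊕ Fin m) ℂ
  /-- denominator -/
  a : Polynomial ℂ
  /-- indices of a basis -/
  I : Finset (Fin m)
  /-- constant terms -/
  p : Fin m → Polynomial ℂ
  /-- coefficients -/
  b : Fin m → Fin m → Polynomial ℂ
  my : ∀ i, Meromorphic (fun z => y z i)
  y0 : ∀ i, AnalyticAt ℂ (fun z => y z i) 0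
  dg : ∀ i, Differentiable ℂ (fun z => g z i)
  fQ : ∀ z j, h z j = MvPolynomial.eval (Sum.elim (y z) (g z)) (Q j)
  a0 : a ≠ 0
  rel : ∀ z i, a.eval z * g z i = (p i).eval z + ∑ l ∈ I, (b i l).eval z * g z l
  zero : ∀ H : MvPolynomial (Fin s ⊕ Fin m) ℂ,
        (∀ᶠ z in 𝓝 0, MvPolynomial.eval (Sum.elim (y z) (g z)) H = 0) →
        ∀ (x : Fin m → ℂ), ∀ᶠ z in 𝓝 0, nu y a I p b H.totalDegree H x z = 0

namespace Mfm

variable {N s m : ℕ} {h : ℂ → Fin N → ℂ} (D : Mfm h s m)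

/-- the point of the affine space with parameters `z, x` -/
noncomputable def Φ (z : ℂ) (x : Fin m → ℂ) (i : Fin m) : ℂ :=
  ((D.p i).eval z + ∑ l ∈ D.I, (D.b i l).eval z * x l) / D.a.eval z

/-- the point of the variety with parameters `z, x` -/
noncomputable def Ψ (z : ℂ) (x : Fin m → ℂ) (j : Fin N) : ℂ :=
  MvPolynomial.eval (Sum.elim (D.y z) (D.Φ z x)) (D.Q j)

theorem Φ_g {z : ℂ} (hz : D.a.eval z ≠ 0) : D.Φ z (D.g z) = D.g z := by
  funext i
  rw [Φ, ← D.rel z i, mul_div_cancel_left₀ _ hz]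

theorem Ψ_g {z : ℂ} (hz : D.a.eval z ≠ 0) : D.Ψ z (D.g z) = h z := by
  funext j
  rw [Ψ, D.Φ_g hz, D.fQ]

/-- the set where the coefficient functions are analytic -/
def Om : Set ℂ := {z | ∀ i, AnalyticAt ℂ (fun z => D.y z i) z}

theorem Om_codis : D.Om ∈ codiscrete ℂ := eventually_all.2 fun i => mero_an (D.my i)

theorem rel_Ψ {G : MvPolynomial (Fin N) ℂ}
    (hG : ∀ᶠ z in codiscrete ℂ, MvPolynomial.eval (h z) G = 0) {z : ℂ}
    (hzO : z ∈ D.Om) (hz : D.a.eval z ≠ 0) (x : Fin m → ℂ) :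
    MvPolynomial.eval (D.Ψ z x) G = 0 := by
  have h1 : ∀ y : Fin s ⊕ Fin m → ℂ, MvPolynomial.eval y (MvPolynomial.bind₁ D.Q G) =
      MvPolynomial.eval (fun j => MvPolynomial.eval y (D.Q j)) G := by
    intro y
    rw [MvPolynomial.eval, MvPolynomial.eval₂Hom_bind₁]
    rfl
  set H := MvPolynomial.bind₁ D.Q G with hH
  have h2 : ∀ᶠ z in 𝓝 0, MvPolynomial.eval (Sum.elim (D.y z) (D.g z)) H = 0 := by
    apply near_of_codis
    · have h3 : (fun z => MvPolynomial.eval (Sum.elim (D.y z) (D.g z)) H) =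
          fun z => MvPolynomial.eval (fun j => (Sum.elim (fun i z => D.y z i)
            (fun i z => D.g z i) : Fin s ⊕ Fin m → ℂ → ℂ) j z) H := by
        funext z
        congr 2
        funext j
        rcases j with j | j <;> rfl
      rw [h3]
      refine an_eval (fun j => ?_) H
      rcases j with j | j
      · exact D.y0 j
      · exact (D.dg j).analyticAt 0
    · filter_upwards [hG] with z hz
      rw [h1, ← hz]
      congr 2
      funext j
      exact (D.fQ z j).symm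
  have h3 := D.zero H h2 x
  have h4 := zero_on D.my (F := fun z => nu D.y D.a D.I D.p D.b H.totalDegree H x z)
    (fun z hz => nu_an D.y D.a D.I D.p D.b hz _ H x) D.y0 h3 hzO
  rw [nu_eq D.y D.a D.I D.p D.b le_rfl x hz] at h4
  have h5 := (mul_eq_zero.1 h4).resolve_left (pow_ne_zero _ hz)
  rw [h1] at h5
  exact h5

theorem exists_deg : ∃ d : ℕ, ∀ j, (D.Q j).totalDegree ≤ d :=
  ⟨Finset.univ.sup fun j => (D.Q j).totalDegree, fun j =>
    Finset.le_sup (f := fun j => (D.Q j).totalDegree) (Finset.mem_univ j)⟩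

/-- the numerators -/
noncomputable def UU (d : ℕ) (x : Fin m → ℂ) (j : Fin N) (z : ℂ) : ℂ :=
  nu D.y D.a D.I D.p D.b d (D.Q j) x z

theorem UU_eq {d : ℕ} (hd : ∀ j, (D.Q j).totalDegree ≤ d) (x : Fin m → ℂ) (j : Fin N) {z : ℂ}
    (hz : D.a.eval z ≠ 0) : D.UU d x j z = D.a.eval z ^ d * D.Ψ z x j :=
  nu_eq D.y D.a D.I D.p D.b (hd j) x hz

end Mfm

/-- The polynomial curves in the family. -/
theorem Mfm.exists_line {N s m : ℕ} {h : ℂ → Fin N → ℂ} (D : Mfm h s m) (z : ℂ)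
    (x x' : Fin m → ℂ) : ∃ P : Fin N → Polynomial ℂ, ∀ j t,
      (P j).eval t = D.Ψ z (fun l => x l + t * (x' l - x l)) j := by
  let V : Fin s ⊕ Fin m → Polynomial ℂ := Sum.elim (fun i => Polynomial.C (D.y z i))
    (fun i => (Polynomial.C ((D.p i).eval z) + ∑ l ∈ D.I, Polynomial.C ((D.b i l).eval z) *
      (Polynomial.C (x l) + Polynomial.X * Polynomial.C (x' l - x l))) *
        Polynomial.C (D.a.eval z)⁻¹)
  refine ⟨fun j => aeval V (D.Q j), fun j t => ?_⟩
  have h1 := MvPolynomial.comp_aeval_apply (f := V) (Polynomial.aeval t) (D.Q j)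
  rw [Polynomial.coe_aeval_eq_eval] at h1
  rw [h1, MvPolynomial.aeval_eq_eval, Mfm.Ψ]
  congr 2
  funext i
  rcases i with i | i
  · simp [V]
  · simp only [V, Sum.elim_inr, Mfm.Φ, Polynomial.eval_mul, Polynomial.eval_add,
      Polynomial.eval_C, Polynomial.eval_finsetSum, Polynomial.eval_X, div_eq_mul_inv]

/-- **Dichotomy.** -/
theorem Mfm.dich {N s m : ℕ} {h : ℂ → Fin (N + 1) → ℂ} (D : Mfm h s m)
    {I I' : Ideal (MvPolynomial (Fin (N + 1)) ℂ)} (hR : RatCurvesIn (RingHom.id ℂ) I I')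
    (hI : ∀ᶠ z in codiscrete ℂ, ∀ G ∈ I, (∃ d, G.IsHomogeneous d) →
      MvPolynomial.eval (h z) G = 0)
    (h0 : ∀ᶠ z in codiscrete ℂ, h z ≠ 0) :
    (∀ᶠ z in codiscrete ℂ, ∀ G ∈ I', (∃ d, G.IsHomogeneous d) →
      MvPolynomial.eval (h z) G = 0) ∨
    ∃ U : Fin (N + 1) → ℂ → ℂ, (∀ S : Subalgebra ℂ (ℂ → ℂ),
      (∀ q : Polynomial ℂ, (fun z => q.eval z) ∈ S) → (∀ i, (fun z => D.y z i) ∈ S) →
        ∀ j, U j ∈ S) ∧
      ∀ᶠ z in codiscrete ℂ, (fun j => U j z) ≠ 0 ∧ ∀ j k, U j z * h z k = U k z * h z j := by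
  obtain ⟨d, hd⟩ := D.exists_deg
  have hae : ∀ᶠ z in codiscrete ℂ, D.a.eval z ≠ 0 := poly_codis D.a0
  have hOm : ∀ᶠ z in codiscrete ℂ, z ∈ D.Om := D.Om_codis
  have hUm : ∀ x j, Meromorphic (D.UU d x j) := by
    intro x j
    let S : Subalgebra ℂ (ℂ → ℂ) := MerS
    exact nu_mem (S := S) D.y D.a D.I D.p D.b
      (fun q z => (q.differentiable.analyticAt z).meromorphicAt) D.my d (D.Q j) x
  have hUa : ∀ x j z, z ∈ D.Om → AnalyticAt ℂ (D.UU d x j) z := fun x j z hz =>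
    nu_an D.y D.a D.I D.p D.b hz d (D.Q j) x
  by_cases hcase : ∃ z0 x0 x1 j k, z0 ∈ D.Om ∧ D.a.eval z0 ≠ 0 ∧
      D.Ψ z0 x0 j * D.Ψ z0 x1 k ≠ D.Ψ z0 x1 j * D.Ψ z0 x0 k
  · left
    obtain ⟨z0, x0, x1, j, k, hz0, ha0, hne⟩ := hcase
    -- nonproportionality at almost all points
    have hw : ∀ᶠ z in codiscrete ℂ,
        D.UU d x0 j z * D.UU d x1 k z - D.UU d x1 j z * D.UU d x0 k z ≠ 0 := by
      refine mero_ne (((hUm x0 j).mul (hUm x1 k)).sub ((hUm x1 j).mul (hUm x0 k))) ?_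
      intro hcon
      have h1 := near_of_codis (x := z0) (u := fun z => D.UU d x0 j z * D.UU d x1 k z -
        D.UU d x1 j z * D.UU d x0 k z) (((hUa x0 j z0 hz0).mul (hUa x1 k z0 hz0)).sub
          ((hUa x1 j z0 hz0).mul (hUa x0 k z0 hz0))) hcon
      have h2 := h1.self_of_nhds
      simp only [D.UU_eq hd _ _ ha0] at h2
      apply hne
      have h3 : (D.a.eval z0 ^ d * D.a.eval z0 ^ d) * (D.Ψ z0 x0 j * D.Ψ z0 x1 k) =
          (D.a.eval z0 ^ d * D.a.eval z0 ^ d) * (D.Ψ z0 x1 j * D.Ψ z0 x0 k) := by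
        linear_combination h2
      exact mul_left_cancel₀ (mul_ne_zero (pow_ne_zero _ ha0) (pow_ne_zero _ ha0)) h3
    have hI2 : ∀ G ∈ I, (∃ d, G.IsHomogeneous d) →
        ∀ᶠ z in codiscrete ℂ, MvPolynomial.eval (h z) G = 0 := fun G hG hGh =>
      hI.mono fun z hz => hz G hG hGh
    filter_upwards [hw, hae, hOm, h0] with z hwz haz hOz hhz G hG hGh
    -- a point which is not proportional to the value of the curve
    obtain ⟨x', j', k', hx'⟩ : ∃ x' j' k', h z j' * D.Ψ z x' k' ≠ D.Ψ z x' j' * h z k' := by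
      by_contra hcon
      push Not at hcon
      obtain ⟨l, hl⟩ := Function.ne_iff.1 hhz
      have hl' : h z l ≠ 0 := hl
      apply hwz
      rw [D.UU_eq hd _ _ haz, D.UU_eq hd _ _ haz, D.UU_eq hd _ _ haz, D.UU_eq hd _ _ haz]
      have e1 := hcon x0 l j
      have e2 := hcon x0 l k
      have e3 := hcon x1 l j
      have e4 := hcon x1 l k
      have h5 : h z l * h z l * (D.Ψ z x0 j * D.Ψ z x1 k - D.Ψ z x1 j * D.Ψ z x0 k) = 0 := by
        have e5 : h z l * h z l * (D.Ψ z x0 j * D.Ψ z x1 k - D.Ψ z x1 j * D.Ψ z x0 k) =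
            (h z l * D.Ψ z x0 j) * (h z l * D.Ψ z x1 k) -
              (h z l * D.Ψ z x1 j) * (h z l * D.Ψ z x0 k) := by ring
        rw [e5, e1, e2, e3, e4]
        ring
      have h6 := (mul_eq_zero.1 h5).resolve_left (mul_ne_zero hl' hl')
      linear_combination (D.a.eval z ^ d * D.a.eval z ^ d) * h6
    obtain ⟨P, hP⟩ := D.exists_line z (D.g z) x'
    have hP0 : ∀ j, (P j).eval 0 = h z j := by
      intro j
      have e1 : (fun l => D.g z l + 0 * (x' l - D.g z l)) = D.g z := by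
        funext l
        ring
      rw [hP, e1, D.Ψ_g haz]
    have hP1 : ∀ j, (P j).eval 1 = D.Ψ z x' j := by
      intro j
      have e1 : (fun l => D.g z l + 1 * (x' l - D.g z l)) = x' := by
        funext l
        ring
      rw [hP, e1]
    have h3 := hR P (fun u G hG hGh => by
      rw [eval₂_id]
      have e1 : (fun j => (P j).eval u) =
          D.Ψ z (fun l => D.g z l + u * (x' l - D.g z l)) := funext fun j => hP j u
      rw [e1]
      exact D.rel_Ψ (hI2 G hG hGh) hOz haz _) ⟨j', k', 0, 1, by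
        rw [hP0, hP0, hP1, hP1]
        intro h4
        apply hx'
        linear_combination h4⟩ 0 G hG hGh
    rw [eval₂_id] at h3
    have e1 : (fun j => (P j).eval 0) = h z := funext hP0
    rw [e1] at h3
    exact h3
  · right
    push Not at hcase
    obtain ⟨z1, ⟨⟨hz1, ha1⟩, hh1⟩⟩ := ((hOm.and hae).and h0).exists
    refine ⟨fun j => D.UU d (D.g z1) j, fun S hS1 hS2 j =>
      nu_mem D.y D.a D.I D.p D.b hS1 hS2 d (D.Q j) (D.g z1), ?_⟩
    -- nonvanishing
    obtain ⟨l, hl⟩ := Function.ne_iff.1 hh1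
    have hl' : h z1 l ≠ 0 := hl
    have hne : ∀ᶠ z in codiscrete ℂ, D.UU d (D.g z1) l z ≠ 0 := by
      refine mero_ne (hUm _ _) ?_
      intro hcon
      have h1 := (near_of_codis (hUa (D.g z1) l z1 hz1) hcon).self_of_nhds
      rw [D.UU_eq hd _ _ ha1, D.Ψ_g ha1] at h1
      exact hl' ((mul_eq_zero.1 h1).resolve_left (pow_ne_zero _ ha1))
    filter_upwards [hne, hae, hOm] with z hz haz hOz
    refine ⟨fun h1 => hz (congrFun h1 l), fun j k => ?_⟩
    rw [D.UU_eq hd _ _ haz, D.UU_eq hd _ _ haz]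
    have h3 := hcase z (D.g z1) (D.g z) j k hOz haz
    rw [D.Ψ_g haz] at h3
    linear_combination D.a.eval z ^ d * h3

end Pool.Agent.TH600.LM
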