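import Pool.Agent.TH600.LC.CFml

/-!
# Functions with gaps over rings of differentially algebraic germs
-/

set_option autoImplicit false

namespace Pool.Agent.TH600.LM

open Finset AlgebraicIndependent Module Filter Topology
open Pool.Agent.TH600.LC

/-! ### Taylor series -/

theorem ts_coeff (f : ℂ → ℂ) (k : ℕ) :
    PowerSeries.coeff k (ts f) = ((k.factorial : ℂ))⁻¹ * iteratedDeriv k f 0 := by
  rw [ts, PowerSeries.coeff_mk]

theorem ts_congr {f g : ℂ → ℂ} (h : f =ᶠ[𝓝 0] g) : ts f = ts g := by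
  ext k
  rw [ts_coeff, ts_coeff, h.iteratedDeriv_eq k]

theorem ts_add {f g : ℂ → ℂ} (hf : AnalyticAt ℂ f 0) (hg : AnalyticAt ℂ g 0) :
    ts (f + g) = ts f + ts g := by
  ext k
  rw [map_add, ts_coeff, ts_coeff, ts_coeff, iteratedDeriv_add hf.contDiffAt hg.contDiffAt]
  ring

theorem ts_mul {f g : ℂ → ℂ} (hf : AnalyticAt ℂ f 0) (hg : AnalyticAt ℂ g 0) :
    ts (f * g) = ts f * ts g := by
  ext k
  rw [PowerSeries.coeff_mul, ts_coeff, iteratedDeriv_mul hf.contDiffAt hg.contDiffAt,
    Finset.Nat.sum_antidiagonal_eq_sum_range_succ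
      (fun i j => PowerSeries.coeff i (ts f) * PowerSeries.coeff j (ts g)), Finset.mul_sum]
  refine Finset.sum_congr rfl fun i hi => ?_
  have hi' : i ≤ k := Nat.lt_succ_iff.1 (Finset.mem_range.1 hi)
  rw [ts_coeff, ts_coeff]
  have h1 : (k.choose i : ℂ) = k.factorial / (i.factorial * (k - i).factorial) :=
    Nat.cast_choose ℂ hi'
  have h2 : (k.factorial : ℂ) ≠ 0 := by exact_mod_cast Nat.factorial_ne_zero k
  have h3 : (i.factorial : ℂ) ≠ 0 := by exact_mod_cast Nat.factorial_ne_zero i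
  have h4 : ((k - i).factorial : ℂ) ≠ 0 := by exact_mod_cast Nat.factorial_ne_zero (k - i)
  rw [h1]
  field_simp

theorem ts_zero_near {f : ℂ → ℂ} (hf : AnalyticAt ℂ f 0) (h : ts f = 0) :
    ∀ᶠ z in 𝓝 0, f z = 0 := by
  have h1 : ∀ i, iteratedDeriv i f 0 = 0 := by
    intro i
    have h2 := congrArg (PowerSeries.coeff i) h
    rw [ts_coeff, map_zero] at h2
    refine (mul_eq_zero.1 h2).resolve_left ?_
    exact inv_ne_zero (by exact_mod_cast Nat.factorial_ne_zero i)
  have h2 : analyticOrderAt f 0 = ⊤ := by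
    refine ENat.eq_top_iff_forall_ge.2 fun n => ?_
    exact (natCast_le_analyticOrderAt_iff_iteratedDeriv_eq_zero hf).2 fun i _ => h1 i
  exact analyticOrderAt_eq_top.1 h2

theorem ts_zero_of_near {f : ℂ → ℂ} (h : ∀ᶠ z in 𝓝 0, f z = 0) : ts f = 0 := by
  rw [ts_congr (g := fun _ => (0 : ℂ)) h]
  ext k
  rw [ts_coeff, map_zero]
  have : iteratedDeriv k (fun _ : ℂ => (0 : ℂ)) 0 = 0 := by
    simp [iteratedDeriv_const]
  rw [this, mul_zero]

theorem ts_poly (p : Polynomial ℂ) : ts (fun z => p.eval z) = (p : PowerSeries ℂ) := by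
  let u : ℂ → Fin 1 → ℂ := fun z _ => p.eval z
  have h1 : sR u (MvPolynomial.X 0 - MvPolynomial.C p) = 0 :=
    sR_zero (fun i => p.differentiable) fun z => by simp [sZ, u]
  rw [map_sub] at h1
  have h2 : sR u (MvPolynomial.X 0) = ts (fun z => p.eval z) := by
    simp [sR, tser_eq, u]
  have h3 : sR u (MvPolynomial.C p) = (p : PowerSeries ℂ) := by simp [sR]
  rw [h2, h3] at h1
  exact sub_eq_zero.1 h1

theorem an_sR {s : ℕ} {y : ℂ → Fin s → ℂ} (hy : ∀ i, AnalyticAt ℂ (fun z => y z i) 0)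
    (r : MvPolynomial (Fin s) (Polynomial ℂ)) :
    AnalyticAt ℂ (fun z => sZ y z r) 0 ∧ sR y r = ts (fun z => sZ y z r) := by
  induction r using MvPolynomial.induction_on with
  | C p =>
    have h1 : sR y (MvPolynomial.C p) = (p : PowerSeries ℂ) := by simp [sR]
    have h2 : (fun z => sZ y z (MvPolynomial.C p)) = fun z => p.eval z := by
      funext z
      simp [sZ]
    rw [h1, h2]
    exact ⟨p.differentiable.analyticAt 0, (ts_poly p).symm⟩
  | add p q hp hq =>
    have h2 : (fun z => sZ y z (p + q)) = (fun z => sZ y z p) + fun z => sZ y z q := by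
      funext z
      simp
    rw [map_add, h2, ts_add hp.1 hq.1, hp.2, hq.2]
    exact ⟨hp.1.add hq.1, rfl⟩
  | mul_X p i hp =>
    have h1 : sR y (MvPolynomial.X i) = ts (fun z => y z i) := by simp [sR, tser_eq]
    have h2 : (fun z => sZ y z (p * MvPolynomial.X i)) =
        (fun z => sZ y z p) * fun z => y z i := by
      funext z
      simp [sZ]
    rw [map_mul, h1, h2, ts_mul hp.1 (hy i), hp.2]
    exact ⟨hp.1.mul (hy i), rfl⟩

theorem sZ_near {s : ℕ} {y : ℂ → Fin s → ℂ} (hy : ∀ i, AnalyticAt ℂ (fun z => y z i) 0)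
    {r : MvPolynomial (Fin s) (Polynomial ℂ)} (hr : sR y r = 0) : ∀ᶠ z in 𝓝 0, sZ y z r = 0 := by
  have h1 := an_sR hy r
  exact ts_zero_near h1.1 (by rw [← h1.2, hr])

theorem sR_near {s : ℕ} {y : ℂ → Fin s → ℂ} (hy : ∀ i, AnalyticAt ℂ (fun z => y z i) 0)
    {r : MvPolynomial (Fin s) (Polynomial ℂ)} (hr : ∀ᶠ z in 𝓝 0, sZ y z r = 0) :
    sR y r = 0 := by
  rw [(an_sR hy r).2]
  exact ts_zero_of_near hr

/-! ### Differentially algebraic germs -/

/-- `y` satisfies a nontrivial algebraic differential equation near the origin. -/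
def DAlg0 (y : ℂ → ℂ) : Prop :=
  ∃ (n : ℕ) (P : MvPolynomial (Fin n) (Polynomial ℂ)), P ≠ 0 ∧
    ∀ᶠ z in 𝓝 0, MvPolynomial.eval₂ (Polynomial.evalRingHom z)
      (fun i : Fin n => iteratedDeriv i y z) P = 0

theorem an_iter {y : ℂ → ℂ} (hy : AnalyticAt ℂ y 0) (j : ℕ) :
    AnalyticAt ℂ (iteratedDeriv j y) 0 := by
  rw [iteratedDeriv_eq_iterate]
  exact hy.iterated_deriv j

theorem exists_T0 {y : ℂ → ℂ} (hyd : AnalyticAt ℂ y 0) (hy : DAlg0 y)
    {D : Derivation ℂ (EE ℂ) (EE ℂ)} (hD : ∀ u, D (emb ℂ u) = emb ℂ (theta ℂ u)) :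
    ∃ T : Set (EE ℂ), T.Finite ∧ (∀ s ∈ T, D s ∈ clo (KK ℂ) T) ∧ emb ℂ (ts y) ∈ clo (KK ℂ) T := by
  classical
  obtain ⟨n, P, hP, hP0⟩ := hy
  let Y : ℕ → EE ℂ := fun j => emb ℂ (ts (iteratedDeriv j y))
  have hDY : ∀ j, D (Y j) = emb ℂ (PowerSeries.X) * Y (j + 1) := by
    intro j
    simp only [Y]
    rw [hD, theta_ts, map_mul, iteratedDeriv_succ]
  -- one of the derivatives is algebraic over the preceding ones
  obtain ⟨j, hjn, hj⟩ : ∃ j < n, Y j ∈ clo (KK ℂ) (Y '' Set.Iio j) := by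
    by_contra hcon
    push Not at hcon
    have hind : ∀ j ≤ n, (matroid (KK ℂ) (EE ℂ)).Indep (Y '' Set.Iio j) := by
      intro j
      induction j with
      | zero =>
        intro _
        have : Set.Iio 0 = (∅ : Set ℕ) := by ext x; simp
        rw [this, Set.image_empty]
        exact (matroid (KK ℂ) (EE ℂ)).empty_indep
      | succ j ih =>
        intro hj
        have h1 : Set.Iio (j + 1) = insert j (Set.Iio j) := by
          ext x
          simp only [Set.mem_Iio, Set.mem_insert_iff]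
          omega
        rw [h1, Set.image_insert_eq]
        have h2 := hcon j (by omega)
        have h3 : Y j ∉ (matroid (KK ℂ) (EE ℂ)).closure (Y '' Set.Iio j) := by
          rw [← coe_clo]
          exact h2
        exact ((ih (by omega)).notMem_closure_iff (Set.mem_univ _)).1 h3 |>.1
    have hinj : Function.Injective fun i : Fin n => Y i := by
      intro i i' h
      by_contra hne
      rcases lt_or_gt_of_ne (fun h0 => hne (Fin.ext h0)) with h1 | h1
      · refine hcon i' i'.2 ?_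
        rw [← show Y i = Y i' from h]
        exact subset_clo _ ⟨i, h1, rfl⟩
      · refine hcon i i.2 ?_
        rw [show Y i = Y i' from h]
        exact subset_clo _ ⟨i', h1, rfl⟩
    have h1 : AlgebraicIndependent (KK ℂ) fun i : Fin n => Y i := by
      rw [← algebraicIndependent_subtype_range hinj]
      have h2 : Set.range (fun i : Fin n => Y i) = Y '' Set.Iio n := by
        ext x
        constructor
        · rintro ⟨i, rfl⟩
          exact ⟨i, i.2, rfl⟩
        · rintro ⟨i, hi, rfl⟩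
          exact ⟨⟨i, hi⟩, rfl⟩
      rw [h2]
      exact hind n le_rfl
    have h2 : MvPolynomial.map (algebraMap (Polynomial ℂ) (KK ℂ)) P = 0 := by
      refine algebraicIndependent_iff.1 h1 _ ?_
      rw [MvPolynomial.aeval_def, MvPolynomial.eval₂_map]
      have h3 : (algebraMap (KK ℂ) (EE ℂ)).comp (algebraMap (Polynomial ℂ) (KK ℂ)) =
          (emb ℂ).comp Polynomial.coeToPowerSeries.ringHom :=
        RingHom.ext fun p => algebraMap_kk p
      let y' : ℂ → Fin n → ℂ := fun z i => iteratedDeriv i y z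
      have h4 : sR y' P = 0 := sR_near (fun i => an_iter hyd i) hP0
      rw [h3]
      have h5 := MvPolynomial.eval₂_comp_left (emb ℂ) Polynomial.coeToPowerSeries.ringHom
        (tser y') P
      have h6 : MvPolynomial.eval₂ Polynomial.coeToPowerSeries.ringHom (tser y') P = 0 := h4
      rw [h6, map_zero] at h5
      exact h5.symm
    exact hP (MvPolynomial.map_injective _ (IsFractionRing.injective _ _) (by
      rw [h2, map_zero]))
  refine ⟨Y '' Set.Iio j, (Set.finite_Iio j).image Y, ?_, ?_⟩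
  · rintro _ ⟨i, hi, rfl⟩
    rw [hDY]
    refine (clo (KK ℂ) (Y '' Set.Iio j)).mul_mem ?_ ?_
    · have h1 := emb_coe_mem (Y '' Set.Iio j) Polynomial.X
      rwa [Polynomial.coe_X] at h1
    · rcases Nat.lt_or_ge (i + 1) j with h1 | h1
      · exact subset_clo _ ⟨i + 1, h1, rfl⟩
      · have h2 : i + 1 = j := by
          have : i < j := hi
          omega
        rw [h2]
        exact hj
  · have h0 : Y 0 = emb ℂ (ts y) := by
      simp only [Y]
      rw [iteratedDeriv_zero]
    rw [← h0]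
    rcases Nat.eq_zero_or_pos j with h1 | h1
    · rw [h1] at hj ⊢
      exact hj
    · exact subset_clo _ ⟨0, h1, rfl⟩

theorem exists_T0_fam {s : ℕ} {y : ℂ → Fin s → ℂ} (hyd : ∀ i, AnalyticAt ℂ (fun z => y z i) 0)
    (hy : ∀ i, DAlg0 (fun z => y z i))
    {D : Derivation ℂ (EE ℂ) (EE ℂ)} (hD : ∀ u, D (emb ℂ u) = emb ℂ (theta ℂ u)) :
    ∃ T : Set (EE ℂ), T.Finite ∧ (∀ s ∈ T, D s ∈ clo (KK ℂ) T) ∧
      ∀ i, emb ℂ (tser y i) ∈ clo (KK ℂ) T := by
  choose T hT hTD hTy using fun i => exists_T0 (hyd i) (hy i) hD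
  refine ⟨⋃ i, T i, Set.finite_iUnion hT, fun u hu => ?_, fun i => ?_⟩
  · obtain ⟨i, hi⟩ := Set.mem_iUnion.1 hu
    exact clo_mono (Set.subset_iUnion T i) (hTD i u hi)
  · rw [tser_eq]
    exact clo_mono (Set.subset_iUnion T i) (hTy i)

theorem tser_rel_loc {s m : ℕ} {y : ℂ → Fin s → ℂ} {g : ℂ → Fin m → ℂ}
    (hy : ∀ i, AnalyticAt ℂ (fun z => y z i) 0) (hg : ∀ i, Differentiable ℂ (fun z => g z i))
    {H : MvPolynomial (Fin s ⊕ Fin m) ℂ}
    (h : ∀ᶠ z in 𝓝 0, MvPolynomial.eval (Sum.elim (y z) (g z)) H = 0) :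
    MvPolynomial.eval₂ PowerSeries.C (Sum.elim (tser y) (tser g)) H = 0 := by
  let u : ℂ → Fin (s + m) → ℂ := fun z i => Sum.elim (y z) (g z) (finSumFinEquiv.symm i)
  have hu : ∀ i, AnalyticAt ℂ (fun z => u z i) 0 := by
    intro i
    simp only [u]
    rcases finSumFinEquiv.symm i with j | j
    · exact hy j
    · exact (hg j).analyticAt 0
  let r : MvPolynomial (Fin (s + m)) (Polynomial ℂ) :=
    MvPolynomial.map Polynomial.C (MvPolynomial.rename finSumFinEquiv H)
  have h1 : sR u r = 0 := by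
    refine sR_near hu ?_
    filter_upwards [h] with z hz
    have h2 : sZ u z r = MvPolynomial.eval (u z) (MvPolynomial.rename finSumFinEquiv H) := by
      simp only [r, sZ, MvPolynomial.coe_eval₂Hom, MvPolynomial.eval₂_map]
      rw [MvPolynomial.eval]
      congr 2
      ext c
      simp
    rw [h2, MvPolynomial.eval_rename, ← hz]
    congr 2
    funext i
    simp only [Function.comp_apply, u, Equiv.symm_apply_apply]
  have h2 : sR u r = MvPolynomial.eval₂ PowerSeries.C (tser u)
      (MvPolynomial.rename finSumFinEquiv H) := by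
    simp only [r, sR, MvPolynomial.coe_eval₂Hom, MvPolynomial.eval₂_map]
    congr 1
    ext c
    simp
  rw [h2, MvPolynomial.eval₂_rename] at h1
  rw [← h1]
  congr 1
  funext i
  rcases i with i | i
  · simp only [Sum.elim_inl, Function.comp_apply, tser_eq, u, Equiv.symm_apply_apply]
  · simp only [Sum.elim_inr, Function.comp_apply, tser_eq, u, Equiv.symm_apply_apply]

/-- The value of the family at the point with parameters `z, x`, without denominators. -/
noncomputable def nu {s m : ℕ} (y : ℂ → Fin s → ℂ) (a : Polynomial ℂ) (I : Finset (Fin m))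
    (p : Fin m → Polynomial ℂ) (b : Fin m → Fin m → Polynomial ℂ) (d : ℕ)
    (H : MvPolynomial (Fin s ⊕ Fin m) ℂ) (x : Fin m → ℂ) (z : ℂ) : ℂ :=
  hval d (RingHom.id ℂ) (a.eval z)
    (Sum.elim (fun i => a.eval z * y z i)
      (fun i => (p i).eval z + ∑ l ∈ I, (b i l).eval z * x l)) H

theorem nu_eq {s m : ℕ} (y : ℂ → Fin s → ℂ) (a : Polynomial ℂ) (I : Finset (Fin m))
    (p : Fin m → Polynomial ℂ) (b : Fin m → Fin m → Polynomial ℂ) {d : ℕ}
    {H : MvPolynomial (Fin s ⊕ Fin m) ℂ} (hd : H.totalDegree ≤ d) (x : Fin m → ℂ) {z : ℂ}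
    (hz : a.eval z ≠ 0) : nu y a I p b d H x z = a.eval z ^ d *
      MvPolynomial.eval (Sum.elim (y z)
          (fun i => ((p i).eval z + ∑ l ∈ I, (b i l).eval z * x l) / a.eval z)) H := by
  have e3 : (Sum.elim (fun i => a.eval z * y z i)
      (fun i => (p i).eval z + ∑ l ∈ I, (b i l).eval z * x l) : Fin s ⊕ Fin m → ℂ) =
      fun i => a.eval z * Sum.elim (y z)
        (fun i => ((p i).eval z + ∑ l ∈ I, (b i l).eval z * x l) / a.eval z) i := by
    funext i
    rcases i with i | i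
    · rfl
    · rw [Sum.elim_inr, Sum.elim_inr, mul_div_cancel₀ _ hz]
  rw [nu, e3, hval_mul _ _ _ hd, MvPolynomial.eval₂_id]

/-- **Structure of relations** between differentially algebraic germs and functions with
Hadamard gaps. -/
theorem structure_loc {s m : ℕ} {y : ℂ → Fin s → ℂ} {g : ℂ → Fin m → ℂ}
    (hyd : ∀ i, AnalyticAt ℂ (fun z => y z i) 0) (hy : ∀ i, DAlg0 (fun z => y z i))
    (hg : ∀ i, HadamardGaps 0 (fun z => g z i)) :
    ∃ (a : Polynomial ℂ) (I : Finset (Fin m)) (p : Fin m → Polynomial ℂ)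
      (b : Fin m → Fin m → Polynomial ℂ), a ≠ 0 ∧
      (∀ z i, a.eval z * g z i = (p i).eval z + ∑ l ∈ I, (b i l).eval z * g z l) ∧
      ∀ H : MvPolynomial (Fin s ⊕ Fin m) ℂ,
        (∀ᶠ z in 𝓝 0, MvPolynomial.eval (Sum.elim (y z) (g z)) H = 0) →
        ∀ (x : Fin m → ℂ), ∀ᶠ z in 𝓝 0, nu y a I p b H.totalDegree H x z = 0 := by
  obtain ⟨I, a, p, b, hI, ha, hrel⟩ := exists_rel (tser g)
  refine ⟨a, I, p, b, ha, rel_eval (fun i => (hg i).1) hrel, fun H hH x => ?_⟩
  obtain ⟨D, hD, hD'⟩ := exists_der ℂ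
  obtain ⟨T, hT, hTD, hTy⟩ := exists_T0_fam hyd hy hD
  have hser := tser_rel_loc hyd (fun i => (hg i).1) hH
  -- the coefficients
  let φ : ℂ →+* MvPolynomial I (MvPolynomial (Fin s) (Polynomial ℂ)) :=
    MvPolynomial.C.comp (MvPolynomial.C.comp Polynomial.C)
  let t : MvPolynomial I (MvPolynomial (Fin s) (Polynomial ℂ)) :=
    MvPolynomial.C (MvPolynomial.C a)
  let w : Fin s ⊕ Fin m → MvPolynomial I (MvPolynomial (Fin s) (Polynomial ℂ)) :=
    Sum.elim (fun i => MvPolynomial.C (MvPolynomial.C a * MvPolynomial.X i))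
      (fun i => MvPolynomial.C (MvPolynomial.C (p i)) +
        ∑ l : I, MvPolynomial.C (MvPolynomial.C (b i l)) * MvPolynomial.X l)
  let P := hval H.totalDegree φ t w H
  have h1 : MvPolynomial.eval₂ ((emb ℂ).comp (sR y)) (fun l : I => emb ℂ (tser g l)) P = 0 := by
    change (MvPolynomial.eval₂Hom ((emb ℂ).comp (sR y)) (fun l : I => emb ℂ (tser g l))) P = 0
    have e0 := map_hval (MvPolynomial.eval₂Hom ((emb ℂ).comp (sR y))
      (fun l : I => emb ℂ (tser g l))) H.totalDegree φ t w H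
    rw [e0]
    have e1 : (MvPolynomial.eval₂Hom ((emb ℂ).comp (sR y))
        (fun l : I => emb ℂ (tser g l))).comp φ = (emb ℂ).comp PowerSeries.C := by
      ext c
      simp [φ, sR]
    have e2 : (MvPolynomial.eval₂Hom ((emb ℂ).comp (sR y))
        (fun l : I => emb ℂ (tser g l))) t = emb ℂ (a : PowerSeries ℂ) := by
      simp [t, sR]
    have e3 : (fun i => (MvPolynomial.eval₂Hom ((emb ℂ).comp (sR y))
        (fun l : I => emb ℂ (tser g l))) (w i)) =
        fun i => emb ℂ (a : PowerSeries ℂ) * emb ℂ (Sum.elim (tser y) (tser g) i) := by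
      funext i
      rcases i with i | i
      · simp [w, sR]
      · rw [Sum.elim_inr, ← map_mul, hrel i, map_add, map_sum, ← Finset.sum_coe_sort I
          (fun l => emb ℂ ((b i l : PowerSeries ℂ) * tser g l))]
        simp [w, sR]
    rw [e1, e2, e3, hval_mul _ _ _ le_rfl, ← MvPolynomial.hom_eval₂, hser, map_zero, mul_zero]
  have h2 := family_diff (tser g) (sparse_tser hg) hI hD hD' hT hTD ((emb ℂ).comp (sR y))
    (fun r => by
      induction r using MvPolynomial.induction_on with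
      | C p =>
        have : sR y (MvPolynomial.C p) = (p : PowerSeries ℂ) := by simp [sR]
        rw [RingHom.comp_apply, this]
        exact emb_coe_mem T p
      | add p q hp hq =>
        rw [map_add]
        exact (clo (KK ℂ) T).add_mem hp hq
      | mul_X p i hp =>
        have : sR y (MvPolynomial.X i) = tser y i := by simp [sR]
        rw [map_mul]
        refine (clo (KK ℂ) T).mul_mem hp ?_
        rw [RingHom.comp_apply, this]
        exact hTy i) P h1
  have h3 : ∀ᶠ z in 𝓝 0, MvPolynomial.map (sZ y z) P = 0 := by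
    have h4 : ∀ α ∈ P.support, ∀ᶠ z in 𝓝 0, sZ y z (MvPolynomial.coeff α P) = 0 := by
      intro α _
      have h4 := congrArg (MvPolynomial.coeff α) h2
      rw [MvPolynomial.coeff_map, MvPolynomial.coeff_zero, RingHom.comp_apply] at h4
      exact sZ_near hyd (emb_injective (by rw [h4, map_zero]))
    filter_upwards [(Finset.eventually_all P.support).2 h4] with z hz
    ext α
    rw [MvPolynomial.coeff_map, MvPolynomial.coeff_zero]
    by_cases hα : α ∈ P.support
    · exact hz α hα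
    · rw [MvPolynomial.notMem_support_iff.1 hα, map_zero]
  filter_upwards [h3] with z h3
  have h4 : (MvPolynomial.eval₂Hom (sZ y z) (fun l : I => x l)) P = 0 := by
    rw [MvPolynomial.coe_eval₂Hom, ← MvPolynomial.eval_map, h3, map_zero]
  have e0 := map_hval (MvPolynomial.eval₂Hom (sZ y z) (fun l : I => x l)) H.totalDegree φ t w H
  rw [e0] at h4
  have e1 : (MvPolynomial.eval₂Hom (sZ y z) (fun l : I => x l)).comp φ = RingHom.id ℂ := by
    ext c
    simp [φ, sZ]
  have e2 : (MvPolynomial.eval₂Hom (sZ y z) (fun l : I => x l)) t = a.eval z := by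
    simp [t, sZ]
  have e3 : (fun i => (MvPolynomial.eval₂Hom (sZ y z) (fun l : I => x l)) (w i)) =
      Sum.elim (fun i => a.eval z * y z i)
        (fun i => (p i).eval z + ∑ l ∈ I, (b i l).eval z * x l) := by
    funext i
    rcases i with i | i
    · simp [w, sZ]
    · rw [Sum.elim_inr, ← Finset.sum_coe_sort I (fun l => (b i l).eval z * x l)]
      simp [w, sZ]
  rw [e1, e2, e3] at h4
  exact h4

end Pool.Agent.TH600.LM
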