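import Pool.Agent.TH600.LM.Psi

/-!
# Relations between solutions of linear differential equations and gap series in an entire function
-/

set_option autoImplicit false

namespace Pool.Agent.TH600.LM

open Finset AlgebraicIndependent Module Filter Topology
open Pool.Agent.TH600.LC hiding evS
open Pool.Agent.TH143.EL hiding evS

theorem clo_base {k E : Type} [Field k] [Field E] [Algebra k E] [Algebra ℂ E]
    (hc : ∀ c : ℂ, ∃ c' : k, algebraMap k E c' = algebraMap ℂ E c) {T : Set E} {x : E}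
    (hx : x ∈ clo ℂ T) : x ∈ clo k T := by
  have h1 : ∀ y ∈ Algebra.adjoin ℂ T, y ∈ Algebra.adjoin k T := by
    intro y hy
    induction hy using Algebra.adjoin_induction with
    | mem y hy => exact Algebra.subset_adjoin hy
    | algebraMap c =>
      obtain ⟨c', hc'⟩ := hc c
      rw [← hc']
      exact (Algebra.adjoin k T).algebraMap_mem c'
    | add y z _ _ h1 h2 => exact (Algebra.adjoin k T).add_mem h1 h2
    | mul y z _ _ h1 h2 => exact (Algebra.adjoin k T).mul_mem h1 h2
  let ι : Algebra.adjoin ℂ T →+* Algebra.adjoin k T :=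
    { toFun := fun y => ⟨y.1, h1 y.1 y.2⟩
      map_one' := rfl
      map_mul' := fun _ _ => rfl
      map_zero' := rfl
      map_add' := fun _ _ => rfl }
  have hι : Function.Injective ι := by
    intro y z h
    exact Subtype.ext (congrArg (fun w : Algebra.adjoin k T => (w : E)) h)
  exact mem_clo.2 ((mem_clo.1 hx).ringHom_of_comp_eq ι (RingHom.id E) hι rfl)

theorem exists_T_BCl' {B : Subalgebra ℂ (ℂ → ℂ)} (hB : TrOne B) :
    ∃ T : Set MK, T.Finite ∧ T ⊆ BCl hB ∧ ((BCl hB : Subalgebra ℂ MK) : Set MK) ⊆ clo ℂ T := by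
  obtain ⟨T, hT, hBT⟩ := exists_T_BCl hB
  obtain ⟨I, hI⟩ := (matroid ℂ MK).exists_isBasis ((BCl hB : Subalgebra ℂ MK) : Set MK)
    (Set.subset_univ _)
  refine ⟨I, ?_, hI.subset, ?_⟩
  · rw [← Set.encard_lt_top_iff, hI.encard_eq_eRk]
    calc (matroid ℂ MK).eRk ((BCl hB : Subalgebra ℂ MK) : Set MK)
        ≤ (matroid ℂ MK).eRk (clo ℂ T : Set MK) := (matroid ℂ MK).eRk_mono hBT
      _ = (matroid ℂ MK).eRk T := eRk_clo T
      _ ≤ T.encard := (matroid ℂ MK).eRk_le_encard T
      _ < ⊤ := Set.encard_lt_top_iff.2 hT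
  · rw [coe_clo]
    exact hI.subset_closure

/-- A finite set whose algebraic closure is stable under the derivation and contains finitely many
given solutions of linear differential equations. -/
theorem exists_T_lin {B : Subalgebra ℂ (ℂ → ℂ)} (hB : TrOne B) {n : ℕ} {x : Fin n → MK}
    (hx : ∀ i, LinF MDer (BCl hB) (x i)) :
    ∃ T : Set MK, T.Finite ∧ (∀ s ∈ T, MD s ∈ clo ℂ T) ∧ ∀ i, x i ∈ clo ℂ T ∧
      MD (x i) ∈ clo ℂ T := by
  classical
  obtain ⟨T₀, hT₀, hT₀B, hBT₀⟩ := exists_T_BCl' hB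
  choose l hl1 hl using fun i => finDF_of_linF (mder_stable hB) (hx i)
  let T : Set MK := T₀ ∪ ⋃ i, (fun j => MDer^[j] (x i)) '' Set.Iio (l i)
  have hBT : ((BCl hB : Subalgebra ℂ MK) : Set MK) ⊆ clo ℂ T :=
    hBT₀.trans (clo_mono Set.subset_union_left)
  have hV' : ∀ i, ∀ v ∈ Submodule.span (FB (BCl hB)) ((fun j => MDer^[j] (x i)) '' Set.Iio (l i)),
      v ∈ clo ℂ T := by
    intro i v hv
    induction hv using Submodule.span_induction with
    | mem v hv => exact subset_clo _ (Or.inr (Set.mem_iUnion.2 ⟨i, hv⟩))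
    | zero => exact (clo ℂ T).zero_mem
    | add u v _ _ h1 h2 => exact (clo ℂ T).add_mem h1 h2
    | smul c v hv h1 => exact (clo ℂ T).mul_mem (FB_le_clo hBT c.2) h1
  have hV : ∀ i j, MDer^[j] (x i) ∈ clo ℂ T := fun i j => hV' i _ (hl i j)
  refine ⟨T, hT₀.union (Set.finite_iUnion fun i => (Set.finite_Iio _).image _), ?_, fun i =>
    ⟨hV i 0, ?_⟩⟩
  · rintro s (hs | hs)
    · exact hBT (BCl_MD hB s (hT₀B hs))
    · obtain ⟨i, j, hj, rfl⟩ := Set.mem_iUnion.1 hs
      have h1 := hV i (j + 1)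
      rw [Function.iterate_succ_apply'] at h1
      exact h1
  · have h1 := hV i 1
    rw [Function.iterate_one] at h1
    exact h1

/-- The value of the family, without denominators. -/
noncomputable def nuP {s m : ℕ} (a : Polynomial ℂ) (I : Finset (Fin m))
    (p : Fin m → Polynomial ℂ) (b : Fin m → Fin m → Polynomial ℂ) (d : ℕ)
    (H : MvPolynomial (Fin s ⊕ Fin m) ℂ) (x : Fin m → ℂ) (w : ℂ) (v : Fin s → ℂ) : ℂ :=
  hval d (RingHom.id ℂ) (a.eval w)
    (Sum.elim (fun i => a.eval w * v i)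
      (fun i => (p i).eval w + ∑ l ∈ I, (b i l).eval w * x l)) H

theorem nuP_eq {s m : ℕ} (a : Polynomial ℂ) (I : Finset (Fin m))
    (p : Fin m → Polynomial ℂ) (b : Fin m → Fin m → Polynomial ℂ) {d : ℕ}
    {H : MvPolynomial (Fin s ⊕ Fin m) ℂ} (hd : H.totalDegree ≤ d) (x : Fin m → ℂ) {w : ℂ}
    (v : Fin s → ℂ) (hz : a.eval w ≠ 0) : nuP a I p b d H x w v = a.eval w ^ d *
      MvPolynomial.eval (Sum.elim v
          (fun i => ((p i).eval w + ∑ l ∈ I, (b i l).eval w * x l) / a.eval w)) H := by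
  have e3 : (Sum.elim (fun i => a.eval w * v i)
      (fun i => (p i).eval w + ∑ l ∈ I, (b i l).eval w * x l) : Fin s ⊕ Fin m → ℂ) =
      fun i => a.eval w * Sum.elim v
        (fun i => ((p i).eval w + ∑ l ∈ I, (b i l).eval w * x l) / a.eval w) i := by
    funext i
    rcases i with i | i
    · rfl
    · rw [Sum.elim_inr, Sum.elim_inr, mul_div_cancel₀ _ hz]
  rw [nuP, e3, hval_mul _ _ _ hd, MvPolynomial.eval₂_id]

section

variable {ψ : ℂ → ℂ} {s m : ℕ}

/-- evaluation of the coefficients -/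
noncomputable def thC (hψ : Differentiable ℂ ψ) {y : ℂ → Fin s → ℂ}
    (my : ∀ i, Meromorphic (fun z => y z i)) : MvPolynomial (Fin s) (Polynomial ℂ) →+* MK :=
  MvPolynomial.eval₂Hom ((Ph hψ).comp polE) (fun i => cl (fun z => y z i) (my i))

/-- evaluation of the coefficients at a point -/
noncomputable def evC (ψ : ℂ → ℂ) (y : ℂ → Fin s → ℂ) (z : ℂ) :
    MvPolynomial (Fin s) (Polynomial ℂ) →+* ℂ :=
  MvPolynomial.eval₂Hom (Polynomial.evalRingHom (ψ z)) (y z)

theorem thC_eq (hψ : Differentiable ℂ ψ) {y : ℂ → Fin s → ℂ}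
    (my : ∀ i, Meromorphic (fun z => y z i)) (r : MvPolynomial (Fin s) (Polynomial ℂ)) :
    ∃ h : Meromorphic (fun z => evC ψ y z r), thC hψ my r = cl (fun z => evC ψ y z r) h := by
  induction r using MvPolynomial.induction_on with
  | C p =>
    have h2 : (fun z => evC ψ y z (MvPolynomial.C p)) = fun z => p.eval (ψ z) := by
      funext z
      simp [evC]
    refine ⟨by rw [h2]; exact mero_of_diff (p.differentiable.comp hψ), ?_⟩
    have h1 : thC hψ my (MvPolynomial.C p) = Ph hψ (polE p) := by simp [thC]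
    rw [h1, Ph_polE, cl_eq]
    exact Eventually.of_forall fun z => (congrFun h2 z).symm
  | add p q hp hq =>
    obtain ⟨h1, h2⟩ := hp
    obtain ⟨h3, h4⟩ := hq
    have h5 : (fun z => evC ψ y z (p + q)) = (fun z => evC ψ y z p) + fun z => evC ψ y z q := by
      funext z
      simp
    refine ⟨by rw [h5]; exact h1.add h3, ?_⟩
    rw [map_add, h2, h4, cl_add, cl_eq]
    exact Eventually.of_forall fun z => (congrFun h5 z).symm
  | mul_X p i hp =>
    obtain ⟨h1, h2⟩ := hp
    have h5 : (fun z => evC ψ y z (p * MvPolynomial.X i)) =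
        (fun z => evC ψ y z p) * fun z => y z i := by
      funext z
      simp [evC]
    refine ⟨by rw [h5]; exact h1.mul (my i), ?_⟩
    have h6 : thC hψ my (MvPolynomial.X i) = cl (fun z => y z i) (my i) := by simp [thC]
    rw [map_mul, h2, h6, cl_mul, cl_eq]
    exact Eventually.of_forall fun z => (congrFun h5 z).symm

/-- **Structure of relations.** -/
theorem structure_psi {B : Subalgebra ℂ (ℂ → ℂ)} (hB : TrOne B) (hψ : Differentiable ℂ ψ)
    (hn : NCE ψ) (hψB : LinB B ψ) {y : ℂ → Fin s → ℂ} {g : ℂ → Fin m → ℂ}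
    (my : ∀ i, Meromorphic (fun z => y z i)) (hy : ∀ i, LinB B (fun z => y z i))
    (hg : ∀ i, HadamardGaps 0 (fun z => g z i)) :
    ∃ (a : Polynomial ℂ) (I : Finset (Fin m)) (p : Fin m → Polynomial ℂ)
      (b : Fin m → Fin m → Polynomial ℂ), a ≠ 0 ∧
      (∀ z i, a.eval z * g z i = (p i).eval z + ∑ l ∈ I, (b i l).eval z * g z l) ∧
      ∀ H : MvPolynomial (Fin s ⊕ Fin m) ℂ,
        (∀ᶠ z in codiscrete ℂ, MvPolynomial.eval (Sum.elim (y z) (g (ψ z))) H = 0) →
        ∀ (x : Fin m → ℂ), ∀ᶠ z in codiscrete ℂ,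
          nuP a I p b H.totalDegree H x (ψ z) (y z) = 0 := by
  classical
  let i0 := algPsi hψ hn
  have hE := psEmb hψ hn
  obtain ⟨I, a, p, b, hI, ha, hrel⟩ := exists_rel (tser g)
  refine ⟨a, I, p, b, ha, rel_eval (fun i => (hg i).1) hrel, fun H hH x => ?_⟩
  -- the differential field
  let xs : Fin (s + 1) → MK := Fin.snoc (fun i => cl (fun z => y z i) (my i))
    (cl ψ (mero_of_diff hψ))
  have hxs : ∀ i, LinF MDer (BCl hB) (xs i) := by
    intro i
    refine Fin.lastCases ?_ (fun i => ?_) i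
    · simp only [xs, Fin.snoc_last]
      exact (linF_iff hB _).1 hψB
    · simp only [xs, Fin.snoc_castSucc]
      exact (linF_iff hB _).1 (hy i)
  obtain ⟨T, hT, hTD, hTx⟩ := exists_T_lin hB hxs
  have hc : ∀ c : ℂ, ∃ c' : KK ℂ, algebraMap (KK ℂ) MK c' = algebraMap ℂ MK c := by
    intro c
    refine ⟨algebraMap (Polynomial ℂ) (KK ℂ) (Polynomial.C c), ?_⟩
    rw [← hE.Φ_pS]
    change Ph hψ (polE (Polynomial.C c)) = _
    rw [Ph_polE, ← cl_const, cl_eq]
    exact Eventually.of_forall fun z => by rw [Polynomial.eval_C]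
  have hψT : cl ψ (mero_of_diff hψ) ∈ clo (KK ℂ) T ∧
      cl (deriv ψ) (mero_of_diff hψ).deriv ∈ clo (KK ℂ) T := by
    have h1 := hTx (Fin.last s)
    simp only [xs, Fin.snoc_last, MD_cl] at h1
    exact ⟨clo_base hc h1.1, clo_base hc h1.2⟩
  have hyT : ∀ i, cl (fun z => y z i) (my i) ∈ clo (KK ℂ) T := by
    intro i
    have h1 := hTx (Fin.castSucc i)
    simp only [xs, Fin.snoc_castSucc] at h1
    exact clo_base hc h1.1
  have hTD' : ∀ t ∈ T, DPsi hψ t ∈ clo (KK ℂ) T := by
    intro t ht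
    rw [DPsi, mulDer_apply, div_eq_mul_inv]
    exact (clo (KK ℂ) T).mul_mem ((clo (KK ℂ) T).mul_mem hψT.1 (inv_mem_clo hψT.2))
      (clo_base hc (hTD t ht))
  -- the relation
  let gE : Fin m → EntSub := fun i => ⟨tser g i, ent_tser (hg i).1⟩
  have hgE : ∀ i, Ph hψ (gE i) = cl (fun z => g (ψ z) i)
      (mero_of_diff (((hg i).1).comp hψ)) := by
    intro i
    rw [Ph_apply, cl_eq]
    exact Eventually.of_forall fun z => ev_tser (hg i).1 (ψ z)
  let V : Fin s ⊕ Fin m → MK := Sum.elim (fun i => cl (fun z => y z i) (my i))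
    (fun i => Ph hψ (gE i))
  have hser : MvPolynomial.eval₂ (algebraMap ℂ MK) V H = 0 := by
    have h1 := aeval_cl (σ := Fin s ⊕ Fin m) (Sum.elim (fun i z => y z i) (fun i z => g (ψ z) i))
      (fun j => by
        rcases j with j | j
        · exact my j
        · exact mero_of_diff (((hg j).1).comp hψ)) H
    have h2 : V = fun j => cl ((Sum.elim (fun i z => y z i) (fun i z => g (ψ z) i) :
        Fin s ⊕ Fin m → ℂ → ℂ) j) (by
        rcases j with j | j
        · exact my j
        · exact mero_of_diff (((hg j).1).comp hψ)) := by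
      funext j
      rcases j with j | j
      · rfl
      · exact hgE j
    rw [← MvPolynomial.aeval_def, h2, h1, cl_eq_zero]
    filter_upwards [hH] with z hz
    rw [← hz]
    congr 2
    funext j
    rcases j with j | j <;> rfl
  let φ : ℂ →+* MvPolynomial I (MvPolynomial (Fin s) (Polynomial ℂ)) :=
    MvPolynomial.C.comp (MvPolynomial.C.comp Polynomial.C)
  let t : MvPolynomial I (MvPolynomial (Fin s) (Polynomial ℂ)) :=
    MvPolynomial.C (MvPolynomial.C a)
  let w : Fin s ⊕ Fin m → MvPolynomial I (MvPolynomial (Fin s) (Polynomial ℂ)) :=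
    Sum.elim (fun i => MvPolynomial.C (MvPolynomial.C a * MvPolynomial.X i))
      (fun i => MvPolynomial.C (MvPolynomial.C (p i)) +
        ∑ l : I, MvPolynomial.C (MvPolynomial.C (b i l)) * MvPolynomial.X l)
  let P := hval H.totalDegree φ t w H
  have hrelE : ∀ i, polE a * gE i = polE (p i) + ∑ l ∈ I, polE (b i l) * gE l := by
    intro i
    apply Subtype.ext
    have h1 := hrel i
    have h3 := map_sum (EntSub.val : EntSub →+* PowerSeries ℂ) (fun l => polE (b i l) * gE l) I
    have h2 : ((polE (p i) + ∑ l ∈ I, polE (b i l) * gE l : EntSub) : PowerSeries ℂ) =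
        (p i : PowerSeries ℂ) + ∑ l ∈ I, (b i l : PowerSeries ℂ) * tser g l :=
      congrArg (fun A => (p i : PowerSeries ℂ) + A) h3
    rw [h2, ← h1]
    rfl
  have h1 : MvPolynomial.eval₂ (thC hψ my) (fun l : I => Ph hψ (gE l)) P = 0 := by
    change (MvPolynomial.eval₂Hom (thC hψ my) (fun l : I => Ph hψ (gE l))) P = 0
    have e0 := map_hval (MvPolynomial.eval₂Hom (thC hψ my)
      (fun l : I => Ph hψ (gE l))) H.totalDegree φ t w H
    rw [e0]
    have e1 : (MvPolynomial.eval₂Hom (thC hψ my)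
        (fun l : I => Ph hψ (gE l))).comp φ = algebraMap ℂ MK := by
      ext c
      have h2 : (MvPolynomial.eval₂Hom (thC hψ my) (fun l : I => Ph hψ (gE l))) (φ c) =
          Ph hψ (polE (Polynomial.C c)) := by
        simp [φ, thC]
      rw [RingHom.comp_apply, h2, Ph_polE, ← cl_const, cl_eq]
      exact Eventually.of_forall fun z => by rw [Polynomial.eval_C]
    have e2 : (MvPolynomial.eval₂Hom (thC hψ my)
        (fun l : I => Ph hψ (gE l))) t = Ph hψ (polE a) := by
      simp [t, thC]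
    have e3 : (fun i => (MvPolynomial.eval₂Hom (thC hψ my)
        (fun l : I => Ph hψ (gE l))) (w i)) =
        fun i => Ph hψ (polE a) * V i := by
      funext i
      rcases i with i | i
      · simp [w, thC, V]
      · simp only [V, Sum.elim_inr]
        rw [← map_mul, hrelE i, map_add, map_sum, ← Finset.sum_coe_sort I
          (fun l => Ph hψ (polE (b i l) * gE l))]
        simp [w, thC]
    rw [e1, e2, e3, hval_mul _ _ _ le_rfl, hser, mul_zero]
  have hsp : Sparse {n | ∃ i, PowerSeries.coeff n (gE i : PowerSeries ℂ) ≠ 0} := sparse_tser hg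
  have hθ : ∀ r, thC hψ my r ∈ clo (KK ℂ) T := by
    intro r
    induction r using MvPolynomial.induction_on with
    | C q =>
      have h2 : thC hψ my (MvPolynomial.C q) = Ph hψ (hE.pS q) := by
        simp only [thC, MvPolynomial.coe_eval₂Hom, MvPolynomial.eval₂_C]
        rfl
      rw [h2, hE.Φ_pS]
      exact (clo (KK ℂ) T).algebraMap_mem _
    | add p q hp hq =>
      rw [map_add]
      exact (clo (KK ℂ) T).add_mem hp hq
    | mul_X p i hp =>
      have h2 : thC hψ my (MvPolynomial.X i) = cl (fun z => y z i) (my i) := by simp [thC]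
      rw [map_mul, h2]
      exact (clo (KK ℂ) T).mul_mem hp (hyT i)
  have h2 := hE.family gE hsp hI (D := DPsi hψ) (fun u => DPsi_Ph hψ hn u)
    (DPsi_stable hψ hn) hT hTD' (thC hψ my) hθ P h1
  have h3 : ∀ᶠ z in codiscrete ℂ, MvPolynomial.map (evC ψ y z) P = 0 := by
    have h4 : ∀ α ∈ P.support, ∀ᶠ z in codiscrete ℂ,
        evC ψ y z (MvPolynomial.coeff α P) = 0 := by
      intro α _
      have h4 := congrArg (MvPolynomial.coeff α) h2
      rw [MvPolynomial.coeff_map, MvPolynomial.coeff_zero] at h4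
      obtain ⟨h5, h6⟩ := thC_eq hψ my (MvPolynomial.coeff α P)
      rw [h6, cl_eq_zero] at h4
      exact h4
    filter_upwards [(Finset.eventually_all P.support).2 h4] with z hz
    ext α
    rw [MvPolynomial.coeff_map, MvPolynomial.coeff_zero]
    by_cases hα : α ∈ P.support
    · exact hz α hα
    · rw [MvPolynomial.notMem_support_iff.1 hα, map_zero]
  filter_upwards [h3] with z h3
  have h4 : (MvPolynomial.eval₂Hom (evC ψ y z) (fun l : I => x l)) P = 0 := by
    rw [MvPolynomial.coe_eval₂Hom, ← MvPolynomial.eval_map, h3, map_zero]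
  have e0 := map_hval (MvPolynomial.eval₂Hom (evC ψ y z) (fun l : I => x l)) H.totalDegree φ t w H
  rw [e0] at h4
  have e1 : (MvPolynomial.eval₂Hom (evC ψ y z) (fun l : I => x l)).comp φ = RingHom.id ℂ := by
    ext c
    simp [φ, evC]
  have e2 : (MvPolynomial.eval₂Hom (evC ψ y z) (fun l : I => x l)) t = a.eval (ψ z) := by
    simp [t, evC]
  have e3 : (fun i => (MvPolynomial.eval₂Hom (evC ψ y z) (fun l : I => x l)) (w i)) =
      Sum.elim (fun i => a.eval (ψ z) * y z i)
        (fun i => (p i).eval (ψ z) + ∑ l ∈ I, (b i l).eval (ψ z) * x l) := by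
    funext i
    rcases i with i | i
    · simp [w, evC]
    · rw [Sum.elim_inr, ← Finset.sum_coe_sort I (fun l => (b i l).eval (ψ z) * x l)]
      simp [w, evC]
  rw [e1, e2, e3] at h4
  exact h4

end

end Pool.Agent.TH600.LM
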