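import Pool.Agent.TH600.LM.Abs
import Pool.Agent.TH600.LM.Brg
import Pool.Agent.TH600.LC.DFin
import Pool.Agent.H458.EC.Rat

/-!
# Gap series in an entire function
-/

set_option autoImplicit false

namespace Pool.Agent.TH600.LM

open Finset AlgebraicIndependent Module Filter Topology
open Pool.Agent.TH600.LC hiding evS
open Pool.Agent.TH143.EL hiding evS

theorem ent_theta {u : PowerSeries ℂ} (hu : H458.EC.Ent u) : H458.EC.Ent (theta ℂ u) := by
  intro r hr
  have h1 := hu (2 * r) (by positivity)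
  refine Summable.of_nonneg_of_le (fun k => by positivity) (fun k => ?_) h1
  rw [coeff_theta, norm_mul, mul_pow]
  have h2 : ‖(k : ℂ)‖ ≤ 2 ^ k := by
    rw [Complex.norm_natCast]
    exact_mod_cast (Nat.lt_two_pow_self (n := k)).le
  have h3 : 0 ≤ ‖PowerSeries.coeff k u‖ * r ^ k := by positivity
  calc ‖(k : ℂ)‖ * ‖PowerSeries.coeff k u‖ * r ^ k
      = ‖(k : ℂ)‖ * (‖PowerSeries.coeff k u‖ * r ^ k) := by ring
    _ ≤ 2 ^ k * (‖PowerSeries.coeff k u‖ * r ^ k) := mul_le_mul_of_nonneg_right h2 h3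
    _ = ‖PowerSeries.coeff k u‖ * (2 ^ k * r ^ k) := by ring

theorem ent_ts {h : ℂ → ℂ} (hh : Differentiable ℂ h) : H458.EC.Ent (ts h) :=
  ent_tser (g := fun z (_ : Fin 1) => h z) (i := 0) hh

theorem ev_ts {h : ℂ → ℂ} (hh : Differentiable ℂ h) (z : ℂ) : H458.EC.ev (ts h) z = h z :=
  ev_tser (g := fun z (_ : Fin 1) => h z) (i := 0) hh z

theorem entSub_ext {a b : EntSub} (h : ∀ z, H458.EC.ev (a : PowerSeries ℂ) z =
    H458.EC.ev (b : PowerSeries ℂ) z) : a = b := by
  have h1 : a - b = 0 := by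
    apply Subtype.ext
    refine H458.EC.eq_zero_of_ev (a - b).2 fun z => ?_
    have h2 := map_sub (LC.evS EntSub le_rfl z) a b
    have h3 : LC.evS EntSub le_rfl z a = H458.EC.ev (a : PowerSeries ℂ) z := rfl
    have h4 : LC.evS EntSub le_rfl z b = H458.EC.ev (b : PowerSeries ℂ) z := rfl
    rw [h3, h4, h z, sub_self] at h2
    exact h2
  exact sub_eq_zero.1 h1

theorem ts_ev {u : PowerSeries ℂ} (hu : H458.EC.Ent u) : ts (H458.EC.ev u) = u := by
  have hd := H458.EC.differentiable_ev hu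
  have h1 := entSub_ext (a := ⟨ts (H458.EC.ev u), ent_ts hd⟩) (b := ⟨u, hu⟩)
    fun z => ev_ts hd z
  exact congrArg Subtype.val h1

theorem ev_theta {u : PowerSeries ℂ} (hu : H458.EC.Ent u) (w : ℂ) :
    H458.EC.ev (theta ℂ u) w = w * deriv (H458.EC.ev u) w := by
  have hd := H458.EC.differentiable_ev hu
  have hdd : Differentiable ℂ (deriv (H458.EC.ev u)) := by
    have h1 := differentiable_iter hd 1
    rwa [iteratedDeriv_one] at h1
  have h1 : theta ℂ u = (Polynomial.X : Polynomial ℂ) * ts (deriv (H458.EC.ev u)) := by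
    conv_lhs => rw [← ts_ev hu]
    rw [theta_ts, Polynomial.coe_X]
  rw [h1, H458.EC.ev_mul (ent_coe _) (ent_ts hdd), ev_coe, ev_ts hdd, Polynomial.eval_X]

section Psi

variable {ψ : ℂ → ℂ}

theorem mero_of_diff {h : ℂ → ℂ} (hh : Differentiable ℂ h) : Meromorphic h :=
  fun z => (hh.analyticAt z).meromorphicAt

/-- Composition of entire power series with an entire function. -/
noncomputable def PhM (hψ : Differentiable ℂ ψ) : EntSub →+* MerS where
  toFun u := ⟨fun z => H458.EC.ev (u : PowerSeries ℂ) (ψ z),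
    mero_of_diff ((H458.EC.differentiable_ev u.2).comp hψ)⟩
  map_one' := Subtype.ext (funext fun z => map_one (LC.evS EntSub le_rfl (ψ z)))
  map_mul' u v := Subtype.ext (funext fun z => map_mul (LC.evS EntSub le_rfl (ψ z)) u v)
  map_zero' := Subtype.ext (funext fun z => map_zero (LC.evS EntSub le_rfl (ψ z)))
  map_add' u v := Subtype.ext (funext fun z => map_add (LC.evS EntSub le_rfl (ψ z)) u v)

/-- Composition of entire power series with an entire function, as an element of the field of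
meromorphic functions. -/
noncomputable def Ph (hψ : Differentiable ℂ ψ) : EntSub →+* MK :=
  (Ideal.Quotient.mk MJ).comp (PhM hψ)

theorem Ph_apply (hψ : Differentiable ℂ ψ) (u : EntSub) :
    Ph hψ u = cl (fun z => H458.EC.ev (u : PowerSeries ℂ) (ψ z))
      (mero_of_diff ((H458.EC.differentiable_ev u.2).comp hψ)) := rfl

/-- a nonconstant entire function -/
def NCE (ψ : ℂ → ℂ) : Prop := ∃ z w, ψ z ≠ ψ w

/-- an entire function vanishing on the image of a nonconstant entire function is zero -/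
theorem zero_of_image (hψ : Differentiable ℂ ψ) (hn : NCE ψ) {F : ℂ → ℂ}
    (hF : Differentiable ℂ F) (h : ∀ᶠ z in codiscrete ℂ, F (ψ z) = 0) : ∀ w, F w = 0 := by
  have h1 : ∀ z, F (ψ z) = 0 := fun z =>
    (near_of_codis (x := z) ((hF.comp hψ).analyticAt z) h).self_of_nhds
  rcases (hψ.analyticAt 0).eventually_constant_or_nhds_le_map_nhds with h2 | h2
  · exfalso
    have h3 : ∀ᶠ z in 𝓝 0, (fun z => ψ z - ψ 0) z = 0 := by
      filter_upwards [h2] with z hz
      rw [hz, sub_self]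
    have h4 := ent_zero_of_near (hψ.sub_const (ψ 0)) h3
    obtain ⟨z, w, hzw⟩ := hn
    apply hzw
    rw [sub_eq_zero.1 (h4 z), sub_eq_zero.1 (h4 w)]
  · have h3 : ∀ᶠ w in 𝓝 (ψ 0), F w = 0 := h2 (Filter.mem_map.2 (Eventually.of_forall fun z => h1 z))
    exact ent_zero_of_near hF h3

theorem Ph_inj (hψ : Differentiable ℂ ψ) (hn : NCE ψ) : Function.Injective (Ph hψ) := by
  rw [injective_iff_map_eq_zero]
  intro u hu
  rw [Ph_apply, cl_eq_zero] at hu
  apply Subtype.ext
  exact H458.EC.eq_zero_of_ev u.2 (zero_of_image hψ hn (H458.EC.differentiable_ev u.2) hu)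

/-- polynomials as entire power series -/
noncomputable def polE : Polynomial ℂ →+* EntSub where
  toFun p := ⟨(p : PowerSeries ℂ), ent_coe p⟩
  map_one' := Subtype.ext Polynomial.coe_one
  map_mul' p q := Subtype.ext (Polynomial.coe_mul p q)
  map_zero' := Subtype.ext Polynomial.coe_zero
  map_add' p q := Subtype.ext (Polynomial.coe_add p q)

theorem polE_inj : Function.Injective polE := by
  intro p q h
  exact Polynomial.coe_injective ℂ (congrArg Subtype.val h)

theorem Ph_polE (hψ : Differentiable ℂ ψ) (p : Polynomial ℂ) :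
    Ph hψ (polE p) = cl (fun z => p.eval (ψ z)) (mero_of_diff (p.differentiable.comp hψ)) := by
  rw [Ph_apply, cl_eq]
  exact Eventually.of_forall fun z => ev_coe p (ψ z)

/-- the rational functions in `ψ` -/
@[reducible] noncomputable def algPsi (hψ : Differentiable ℂ ψ) (hn : NCE ψ) : Algebra (KK ℂ) MK :=
  (IsFractionRing.lift (A := Polynomial ℂ) (K := KK ℂ) (g := (Ph hψ).comp polE)
    ((Ph_inj hψ hn).comp polE_inj)).toAlgebra

theorem psEmb (hψ : Differentiable ℂ ψ) (hn : NCE ψ) :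
    @PsEmb EntSub MK _ (algPsi hψ hn) (Ph hψ) := by
  let i := algPsi hψ hn
  refine ⟨Ph_inj hψ hn, fun p => ⟨ent_coe p, ?_⟩, fun u hu => ent_theta hu⟩
  exact (IsFractionRing.lift_algebraMap (A := Polynomial ℂ) (K := KK ℂ)
    (g := (Ph hψ).comp polE) ((Ph_inj hψ hn).comp polE_inj) p).symm

/-- multiples of the derivation -/
noncomputable def mulDer (c : MK) : Derivation ℂ MK MK :=
  Derivation.mk'
    { toFun := fun x => c * MD x
      map_add' := fun x y => by rw [MD_add, mul_add]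
      map_smul' := fun a x => by
        rw [Algebra.smul_def, MD_mul, MD_const, mul_zero, add_zero, RingHom.id_apply,
          Algebra.smul_def]
        ring }
    (fun x y => by
      change c * MD (x * y) = x • (c * MD y) + y • (c * MD x)
      rw [MD_mul, smul_eq_mul, smul_eq_mul]
      ring)

theorem mulDer_apply (c x : MK) : mulDer c x = c * MD x := rfl

/-- the derivation `ψ d/dψ` -/
noncomputable def DPsi (hψ : Differentiable ℂ ψ) : Derivation ℂ MK MK :=
  mulDer (cl ψ (mero_of_diff hψ) / cl (deriv ψ) (mero_of_diff hψ).deriv)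

theorem deriv_ne (hψ : Differentiable ℂ ψ) (hn : NCE ψ) :
    cl (deriv ψ) (mero_of_diff hψ).deriv ≠ 0 := by
  intro h0
  have h1 := cl_eq_zero.1 h0
  have h2 : Differentiable ℂ (deriv ψ) := by
    have h1 := differentiable_iter hψ 1
    rwa [iteratedDeriv_one] at h1
  have h3 : ∀ z, deriv ψ z = 0 := fun z => (near_of_codis (h2.analyticAt z) h1).self_of_nhds
  obtain ⟨z, w, hzw⟩ := hn
  exact hzw (is_const_of_deriv_eq_zero hψ h3 z w)

theorem DPsi_Ph (hψ : Differentiable ℂ ψ) (hn : NCE ψ) (u : EntSub) :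
    DPsi hψ (Ph hψ u) = Ph hψ ⟨theta ℂ u, ent_theta u.2⟩ := by
  have h1 : MD (Ph hψ u) = cl (deriv fun z => H458.EC.ev (u : PowerSeries ℂ) (ψ z))
      (mero_of_diff ((H458.EC.differentiable_ev u.2).comp hψ)).deriv := by
    rw [Ph_apply, MD_cl]
  rw [DPsi, mulDer_apply, h1, div_mul_eq_mul_div, div_eq_iff (deriv_ne hψ hn), Ph_apply, cl_mul, cl_mul, cl_eq]
  refine Eventually.of_forall fun z => ?_
  have hd := H458.EC.differentiable_ev u.2
  have h3 : deriv (fun z => H458.EC.ev (u : PowerSeries ℂ) (ψ z)) z =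
      deriv (H458.EC.ev (u : PowerSeries ℂ)) (ψ z) * deriv ψ z :=
    ((hd (ψ z)).hasDerivAt.comp z (hψ z).hasDerivAt).deriv
  rw [Pi.mul_apply, Pi.mul_apply, h3, ev_theta u.2]
  ring

theorem DPsi_stable (hψ : Differentiable ℂ ψ) (hn : NCE ψ) (c : KK ℂ) :
    ∃ c' : KK ℂ, DPsi hψ (@algebraMap (KK ℂ) MK _ _ (algPsi hψ hn) c) =
      @algebraMap (KK ℂ) MK _ _ (algPsi hψ hn) c' := by
  let i := algPsi hψ hn
  have H := psEmb hψ hn
  obtain ⟨p, q, hq, hc⟩ := H.frac c
  have hpoly : ∀ p : Polynomial ℂ, ∃ p' : Polynomial ℂ,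
      DPsi hψ (Ph hψ (H.pS p)) = Ph hψ (H.pS p') := by
    intro p
    refine ⟨Polynomial.X * Polynomial.derivative p, ?_⟩
    rw [DPsi_Ph hψ hn]
    congr 1
    apply Subtype.ext
    change theta ℂ (p : PowerSeries ℂ) = ((Polynomial.X * Polynomial.derivative p :
      Polynomial ℂ) : PowerSeries ℂ)
    rw [theta, Derivation.smul_apply, smul_eq_mul, PowerSeries.derivative_coe,
      Polynomial.coe_mul, Polynomial.coe_X]
  obtain ⟨p', hp'⟩ := hpoly p
  obtain ⟨q', hq'⟩ := hpoly q
  refine ⟨algebraMap _ _ (p' * q - p * q') / algebraMap _ _ (q * q), ?_⟩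
  have hq0 := H.Φ_pS_ne hq
  rw [map_div₀ (algebraMap (KK ℂ) MK), ← H.Φ_pS, ← H.Φ_pS, H.pS_mul]
  have hsub : H.pS (p' * q - p * q') = H.pS p' * H.pS q - H.pS p * H.pS q' := by
    have h1 := map_sub H.pH (p' * q) (p * q')
    rw [map_mul, map_mul] at h1
    exact h1
  rw [hsub]
  change DPsi hψ (algebraMap (KK ℂ) MK c) = _
  rw [hc, Derivation.leibniz_div, hp', hq']
  simp only [map_mul, smul_eq_mul, map_sub]
  field_simp

end Psi

end Pool.Agent.TH600.LM
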